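import Mathlib

/-!
Silver-type cubes in the Cantor space and the countable Borel cover lemma.
-/

open Set Filter Topology

namespace Pool.Agent.H66.BP

/-- points of the Cantor space -/
abbrev Pt := ℕ → Bool

/-- Silver conditions: partial functions with infinite co-domain of undefined places -/
structure Cond where
  /-- the function; `none` is a free place -/
  f : ℕ → Option Bool
  inf : {n | f n = none}.Infinite

/-- `z` is compatible with `p` -/
def Comp (p : Cond) (z : Pt) : Prop := ∀ n, p.f n ≠ none → p.f n = some (z n)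

/-- `z` is compatible with `p` up to finitely many places -/
def Comps (p : Cond) (z : Pt) : Prop := ∀ᶠ n in atTop, p.f n ≠ none → p.f n = some (z n)

/-- true extension -/
def Ext (q p : Cond) : Prop := ∀ n, p.f n ≠ none → q.f n = p.f n

/-- extension modulo finite -/
def Exts (q p : Cond) : Prop := ∀ᶠ n in atTop, p.f n ≠ none → q.f n = p.f n

lemma Ext.exts {q p : Cond} (h : Ext q p) : Exts q p := Eventually.of_forall h

lemma Ext.refl (p : Cond) : Ext p p := fun _ _ ↦ rfl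

lemma Ext.trans {r q p : Cond} (h : Ext r q) (h' : Ext q p) : Ext r p := by
  intro n hn
  have h1 := h' n hn
  rw [h n (by rw [h1]; exact hn), h1]

lemma Exts.trans {r q p : Cond} (h : Exts r q) (h' : Exts q p) : Exts r p := by
  filter_upwards [h, h'] with n h1 h2 hn
  have h3 := h2 hn
  rw [h1 (by rw [h3]; exact hn), h3]

lemma Exts.refl (p : Cond) : Exts p p := Eventually.of_forall fun _ _ ↦ rfl

lemma Comp.comps {p : Cond} {z : Pt} (h : Comp p z) : Comps p z := Eventually.of_forall h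

lemma Comps.mono {q p : Cond} (h : Exts q p) {z : Pt} (hz : Comps q z) : Comps p z := by
  filter_upwards [h, hz] with n h1 h2 hn
  have h3 := h1 hn
  rw [← h3]
  exact h2 (by rw [h3]; exact hn)

lemma Comp.mono {q p : Cond} (h : Ext q p) {z : Pt} (hz : Comp q z) : Comp p z := by
  intro n hn
  have h3 := h n hn
  rw [← h3]
  exact hz n (by rw [h3]; exact hn)

/-- replace the first `k` values -/
def md (k : ℕ) (σ : Pt) (z : Pt) : Pt := fun n ↦ if n < k then σ n else z n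

lemma md_lt {k : ℕ} {σ z : Pt} {n : ℕ} (h : n < k) : md k σ z n = σ n := if_pos h

lemma md_ge {k : ℕ} {σ z : Pt} {n : ℕ} (h : k ≤ n) : md k σ z n = z n := if_neg (not_lt.2 h)

/-- neighbourhoods in the Cantor space -/
lemma exists_nbhd {D : Set Pt} (hD : IsOpen D) {w : Pt} (hw : w ∈ D) :
    ∃ l : ℕ, ∀ z : Pt, (∀ n < l, z n = w n) → z ∈ D := by
  rw [isOpen_pi_iff] at hD
  obtain ⟨I, v, hv, hsub⟩ := hD w hw
  refine ⟨I.sup id + 1, fun z hz ↦ hsub fun i hi ↦ ?_⟩
  have h1 : i ≤ I.sup id := Finset.le_sup (f := id) hi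
  rw [hz i (by omega)]
  exact (hv i hi).2

lemma isOpen_agree (w : Pt) (l : ℕ) : IsOpen {z : Pt | ∀ n < l, z n = w n} := by
  have : {z : Pt | ∀ n < l, z n = w n} = ⋂ n ∈ Finset.range l, {z : Pt | z n = w n} := by
    ext z
    simp
  rw [this]
  refine isOpen_biInter_finset fun n _ ↦ ?_
  exact (isOpen_discrete ({w n} : Set Bool)).preimage (continuous_apply (A := fun _ ↦ Bool) n)

lemma ext_one {D : Set Pt} (hD : IsOpen D) (hd : Dense D) (w : Pt) (l : ℕ) :
    ∃ (w' : Pt) (l' : ℕ), l ≤ l' ∧ (∀ n < l, w' n = w n) ∧ ∀ z : Pt,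
      (∀ n < l', z n = w' n) → z ∈ D := by
  obtain ⟨w', hw', hw'D⟩ := hd.inter_open_nonempty _ (isOpen_agree w l) ⟨w, fun _ _ ↦ rfl⟩
  obtain ⟨l', hl'⟩ := exists_nbhd hD hw'D
  refine ⟨w', max l l', le_max_left _ _, hw', fun z hz ↦ hl' z fun n hn ↦ ?_⟩
  exact hz n (lt_of_lt_of_le hn (le_max_right _ _))

lemma common {D : Set Pt} (hD : IsOpen D) (hd : Dense D) (k : ℕ) (S : Finset Pt) :
    ∀ (w : Pt) (l : ℕ), k ≤ l → ∃ (w' : Pt) (l' : ℕ), l ≤ l' ∧
      (∀ n, k ≤ n → n < l → w' n = w n) ∧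
      ∀ σ ∈ S, ∀ z : Pt, (∀ n < k, z n = σ n) → (∀ n, k ≤ n → n < l' → z n = w' n) → z ∈ D := by
  classical
  induction S using Finset.induction_on with
  | empty =>
    intro w l hl
    exact ⟨w, l, le_rfl, fun _ _ _ ↦ rfl, fun σ hσ ↦ absurd hσ (Finset.notMem_empty σ)⟩
  | insert σ S _ ih =>
    intro w l hl
    obtain ⟨w1, l1, hl1, hw1, h1⟩ := ih w l hl
    obtain ⟨w2, l2, hl2, hw2, h2⟩ := ext_one hD hd (md k σ w1) l1
    have hw2' : ∀ n, k ≤ n → n < l1 → w2 n = w1 n := fun n hn hn' ↦ by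
      rw [hw2 n hn', md_ge hn]
    refine ⟨w2, l2, hl1.trans hl2, fun n hn hn' ↦ ?_, fun τ hτ z hz hz' ↦ ?_⟩
    · rw [hw2' n hn (lt_of_lt_of_le hn' hl1), hw1 n hn hn']
    · rcases Finset.mem_insert.1 hτ with rfl | hτ
      · refine h2 z fun n hn ↦ ?_
        by_cases hnk : n < k
        · rw [hz n hnk, hw2 n (by omega), md_lt hnk]
        · exact hz' n (by omega) hn
      · refine h1 τ hτ z hz fun n hn hn' ↦ ?_
        rw [hz' n hn (by omega), hw2' n hn hn']

/-- every point agrees below `k` with one of finitely many points -/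
lemma exists_reps (k : ℕ) : ∃ S : Finset Pt, ∀ z : Pt, ∃ σ ∈ S, ∀ n < k, z n = σ n := by
  classical
  refine ⟨Finset.univ.image (fun (g : Fin k → Bool) (n : ℕ) ↦ if h : n < k then g ⟨n, h⟩ else
    false), fun z ↦ ⟨_, Finset.mem_image_of_mem _ (Finset.mem_univ (fun i : Fin k ↦ z i)),
    fun n hn ↦ ?_⟩⟩
  simp [hn]

lemma common' {D : Set Pt} (hD : IsOpen D) (hd : Dense D) (k : ℕ) :
    ∃ (w : Pt) (l : ℕ), k ≤ l ∧ ∀ z : Pt, (∀ n, k ≤ n → n < l → z n = w n) → z ∈ D := by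
  obtain ⟨S, hS⟩ := exists_reps k
  obtain ⟨w, l, hl, -, h⟩ := common hD hd k S (fun _ ↦ false) k le_rfl
  refine ⟨w, l, hl, fun z hz ↦ ?_⟩
  obtain ⟨σ, hσ, hσz⟩ := hS z
  exact h σ hσ z hσz hz

/-- gluing a coherent sequence of functions -/
lemma glue (k : ℕ → ℕ) (Q : ℕ → ℕ → Option Bool) (hk : ∀ j, k j < k (j + 1))
    (hQ : ∀ j n, n < k j → Q (j + 1) n = Q j n) :
    ∃ q : ℕ → Option Bool, ∀ j n, n < k j → q n = Q j n := by
  have hmono : StrictMono k := strictMono_nat_of_lt_succ hk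
  have h1 : ∀ j n, n < k j → ∀ i, Q (j + i) n = Q j n := by
    intro j n hn i
    induction i with
    | zero => rfl
    | succ i ih =>
      rw [← ih]
      exact hQ (j + i) n (lt_of_lt_of_le hn (hmono.monotone (by omega)))
  refine ⟨fun n ↦ Q (n + 1) n, fun j n hn ↦ ?_⟩
  have h2 : n < k (n + 1) := lt_of_lt_of_le (Nat.lt_succ_self n) (hmono.id_le (n + 1))
  have h3 := h1 (n + 1) n h2 j
  have h4 := h1 j n hn (n + 1)
  change Q (n + 1) n = Q j n
  rw [← h3, ← h4]
  congr 1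
  omega

/-- A Silver cube inside an open set intersected with countably many dense open sets. -/
lemma silver_fusion {u : Set Pt} (hu : IsOpen u) (hne : u.Nonempty) (D : ℕ → Set Pt)
    (hD : ∀ j, IsOpen (D j)) (hd : ∀ j, Dense (D j)) :
    ∃ q : Cond, ∀ z, Comp q z → z ∈ u ∧ ∀ j, z ∈ D j := by
  classical
  obtain ⟨w0, hw0⟩ := hne
  obtain ⟨l0, hl0⟩ := exists_nbhd hu hw0
  have step : ∀ (j : ℕ) (s : ℕ × (ℕ → Option Bool)), ∃ s' : ℕ × (ℕ → Option Bool),
      s.1 < s'.1 ∧ (∀ n < s.1, s'.2 n = s.2 n) ∧ (∃ n, s.1 ≤ n ∧ n < s'.1 ∧ s'.2 n = none) ∧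
      ∀ z : Pt, (∀ n, s.1 ≤ n → n < s'.1 → s'.2 n ≠ none → s'.2 n = some (z n)) → z ∈ D j := by
    rintro j ⟨k, q⟩
    obtain ⟨w, l, hl, h⟩ := common' (hD j) (hd j) k
    refine ⟨⟨l + 1, fun n ↦ if n < k then q n else if n < l then some (w n) else none⟩,
      by dsimp only; omega, fun n hn ↦ if_pos hn, ⟨l, hl, by dsimp only; omega, ?_⟩,
      fun z hz ↦ h z fun n hn hn' ↦ ?_⟩
    · dsimp only
      rw [if_neg (by omega), if_neg (by omega)]
    · have h1 := hz n hn (by dsimp only; omega)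
      dsimp only at h1
      rw [if_neg (by omega), if_pos hn'] at h1
      exact (Option.some.inj (h1 (by simp))).symm
  choose next h1 h2 h3 h4 using step
  let s0 : ℕ × (ℕ → Option Bool) := ⟨l0, fun n ↦ some (w0 n)⟩
  let seq : ℕ → ℕ × (ℕ → Option Bool) := fun j ↦ Nat.rec s0 (fun j s ↦ next j s) j
  have hseq : ∀ j, seq (j + 1) = next j (seq j) := fun j ↦ rfl
  obtain ⟨q, hq⟩ := glue (fun j ↦ (seq j).1) (fun j ↦ (seq j).2)
    (fun j ↦ by simp only [hseq]; exact h1 j (seq j))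
    (fun j n hn ↦ by simp only [hseq]; exact h2 j (seq j) n hn)
  have hmono : StrictMono (fun j ↦ (seq j).1) :=
    strictMono_nat_of_lt_succ fun j ↦ by simp only [hseq]; exact h1 j (seq j)
  have hinf : {n | q n = none}.Infinite := by
    rw [Set.infinite_iff_exists_gt]
    intro a
    obtain ⟨n, hn, hn', hn''⟩ := h3 (a + 1) (seq (a + 1))
    rw [← hseq] at hn' hn''
    refine ⟨n, ?_, ?_⟩
    · have := hq (a + 2) n hn'
      change q n = none
      rw [this]
      exact hn''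
    · have : a + 1 ≤ (seq (a + 1)).1 := hmono.id_le (a + 1)
      omega
  refine ⟨⟨q, hinf⟩, fun z hz ↦ ⟨hl0 z fun n hn ↦ ?_, fun j ↦ ?_⟩⟩
  · have h5 : q n = some (w0 n) := hq 0 n hn
    have h6 := hz n (by change q n ≠ none; rw [h5]; simp)
    change q n = some (z n) at h6
    rw [h5] at h6
    exact (Option.some.inj h6).symm
  · refine h4 j (seq j) z fun n hn hn' hn'' ↦ ?_
    rw [← hseq] at hn' hn'' ⊢
    have h5 := hq (j + 1) n hn'
    change q n = (seq (j + 1)).2 n at h5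
    rw [← h5] at hn'' ⊢
    exact hz n hn''

/-- A Silver cube in a nonmeagre Borel set. -/
lemma exists_cube_of_nonmeagre {V : Set Pt}
    (hV : MeasurableSet V) (hne : ¬ IsMeagre V) : ∃ q : Cond, ∀ z, Comp q z → z ∈ V := by
  obtain ⟨u, hu, hVu⟩ := hV.residualEq_isOpen
  have hune : u.Nonempty := by
    by_contra h
    rw [Set.not_nonempty_iff_eq_empty] at h
    subst h
    apply hne
    rw [Filter.eventuallyEq_set] at hVu
    filter_upwards [hVu] with x hx
    simpa using hx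
  rw [Filter.eventuallyEq_set] at hVu
  obtain ⟨t, ht, htG, htd⟩ := mem_residual.1 hVu
  obtain ⟨D, hD, rfl⟩ := isGδ_iff_eq_iInter_nat.1 htG
  obtain ⟨q, hq⟩ := silver_fusion hu hune D hD (fun j ↦ htd.mono (iInter_subset _ j))
  refine ⟨q, fun z hz ↦ ?_⟩
  obtain ⟨h1, h2⟩ := hq z hz
  exact (ht (mem_iInter.2 h2)).2 h1

end Pool.Agent.H66.BP
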