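import Mathlib
import Pool.Agent.H66.BPCubes

/-!
The main fusion lemma and the lemmas on Silver conditions.
-/

open Set Filter Topology

namespace Pool.Agent.H66.BP

/-- the free places of a condition -/
abbrev Cond.Free (p : Cond) (n : ℕ) : Prop := p.f n = none

instance (p : Cond) : DecidablePred p.Free := fun n ↦ inferInstanceAs (Decidable (p.f n = none))

/-- parametrisation of a cube -/
def emb (p : Cond) (w : Pt) : Pt := fun n ↦
  match p.f n with
  | some b => b
  | none => w (Nat.count p.Free n)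

lemma emb_some {p : Cond} {n : ℕ} {b : Bool} (h : p.f n = some b) (w : Pt) : emb p w n = b := by
  simp [emb, h]

lemma emb_none {p : Cond} {n : ℕ} (h : p.f n = none) (w : Pt) :
    emb p w n = w (Nat.count p.Free n) := by
  simp [emb, h]

lemma continuous_emb (p : Cond) : Continuous (emb p) := by
  refine continuous_pi fun n ↦ ?_
  cases h : p.f n with
  | some b => simpa only [emb_some h] using continuous_const
  | none =>
    simp only [emb_none h]
    exact continuous_apply (A := fun _ ↦ Bool) _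

lemma comp_emb (p : Cond) (w : Pt) : Comp p (emb p w) := by
  intro n hn
  cases h : p.f n with
  | some b => rw [emb_some h]
  | none => exact absurd h hn

lemma nth_free (p : Cond) (i : ℕ) : p.f (Nat.nth p.Free i) = none :=
  Nat.nth_mem_of_infinite (p := p.Free) p.inf i

lemma emb_surj (p : Cond) {z : Pt} (hz : Comp p z) :
    emb p (fun i ↦ z (Nat.nth p.Free i)) = z := by
  funext n
  cases h : p.f n with
  | some b =>
    rw [emb_some h]
    have h1 := hz n (by rw [h]; simp)
    rw [h] at h1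
    exact Option.some.inj h1
  | none =>
    rw [emb_none h, Nat.nth_count (p := p.Free) h]

/-- A cube covered by countably many Borel sets has a subcube inside one of them. -/
lemma exists_subcube (p : Cond) (V : ℕ → Set Pt) (hV : ∀ m, MeasurableSet (V m))
    (hc : ∀ z, Comp p z → ∃ m, z ∈ V m) :
    ∃ q : Cond, Ext q p ∧ ∃ m, ∀ z, Comp q z → z ∈ V m := by
  have hcov : (⋃ m, emb p ⁻¹' V m) = univ := by
    ext w
    simp only [mem_iUnion, mem_preimage, mem_univ, iff_true]
    exact hc _ (comp_emb p w)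
  obtain ⟨m, hm⟩ : ∃ m, ¬ IsMeagre (emb p ⁻¹' V m) := by
    by_contra hcon
    push Not at hcon
    have h1 : IsMeagre (⋃ m, emb p ⁻¹' V m) := isMeagre_iUnion hcon
    rw [hcov] at h1
    exact not_isMeagre_of_isOpen isOpen_univ univ_nonempty h1
  obtain ⟨q0, hq0⟩ := exists_cube_of_nonmeagre ((continuous_emb p).measurable (hV m)) hm
  have hinf : {n | (match p.f n with
      | some b => some b
      | none => q0.f (Nat.count p.Free n)) = none}.Infinite := by
    have h1 : (Nat.nth p.Free '' {n | q0.f n = none}).Infinite :=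
      q0.inf.image (Nat.nth_injective (p := p.Free) p.inf).injOn
    refine h1.mono ?_
    rintro _ ⟨i, hi, rfl⟩
    have h2 := nth_free p i
    change (match p.f (Nat.nth p.Free i) with
      | some b => some b
      | none => q0.f (Nat.count p.Free (Nat.nth p.Free i))) = none
    rw [h2]
    simp only [Nat.count_nth_of_infinite (p := p.Free) p.inf]
    exact hi
  refine ⟨⟨_, hinf⟩, ?_, m, ?_⟩
  · intro n hn
    cases h : p.f n with
    | some b => simp [h]
    | none => exact absurd h hn
  · intro z hz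
    have hzp : Comp p z := by
      intro n hn
      cases h : p.f n with
      | some b =>
        have := hz n (by simp [h])
        simpa [h] using this
      | none => exact absurd h hn
    have h1 : Comp q0 (fun i ↦ z (Nat.nth p.Free i)) := by
      intro i hi
      have h2 := hz (Nat.nth p.Free i)
      simp only [nth_free p i, Nat.count_nth_of_infinite (p := p.Free) p.inf] at h2
      exact h2 hi
    have h3 := hq0 _ h1
    rwa [mem_preimage, emb_surj p hzp] at h3

/-- finite modifications of `z` -/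
def E0 (x y : Pt) : Prop := ∀ᶠ n in atTop, x n = y n

lemma E0.refl (x : Pt) : E0 x x := Eventually.of_forall fun _ ↦ rfl

lemma E0.symm {x y : Pt} (h : E0 x y) : E0 y x := by
  filter_upwards [h] with n hn using hn.symm

lemma E0.trans {x y z : Pt} (h : E0 x y) (h' : E0 y z) : E0 x z := by
  filter_upwards [h, h'] with n hn hn' using hn.trans hn'

lemma E0_md (k : ℕ) (σ z : Pt) : E0 (md k σ z) z := by
  filter_upwards [eventually_ge_atTop k] with n hn using md_ge hn

lemma Comps.congr {p : Cond} {z z' : Pt} (h : Comps p z) (h' : E0 z z') : Comps p z' := by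
  filter_upwards [h, h'] with n h1 h2 hn
  rw [← h2]
  exact h1 hn

lemma continuous_md (k : ℕ) (σ : Pt) : Continuous (md k σ) := by
  refine continuous_pi fun n ↦ ?_
  by_cases h : n < k
  · simpa only [md_lt h] using continuous_const
  · simp only [md_ge (not_lt.1 h)]
    exact continuous_apply (A := fun _ ↦ Bool) _

/-- One fusion step. -/
lemma fusion_step (p : Cond) (k : ℕ) (F : Finset Pt) (U : ℕ → Set Pt)
    (hU : ∀ m, MeasurableSet (U m))
    (hc : ∀ y, Comps p y → ∀ G : Finset Pt, (∀ x ∈ G, E0 x y) → ∃ m, ↑F ⊆ U m ∧ ↑G ⊆ U m) :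
    ∃ q : Cond, Ext q p ∧ (∀ n < k, q.f n = p.f n) ∧ ∃ m, ↑F ⊆ U m ∧
      ∀ z : Pt, (∀ n, k ≤ n → q.f n ≠ none → q.f n = some (z n)) → z ∈ U m := by
  classical
  obtain ⟨S, hS⟩ := exists_reps k
  let V : ℕ → Set Pt := fun m ↦ {z | ↑F ⊆ U m ∧ ∀ σ ∈ S, md k σ z ∈ U m}
  have hV : ∀ m, MeasurableSet (V m) := by
    intro m
    have h1 : MeasurableSet (⋂ σ ∈ S, md k σ ⁻¹' U m) :=
      Finset.measurableSet_biInter S fun σ _ ↦ (continuous_md k σ).measurable (hU m)
    by_cases h : ↑F ⊆ U m
    · convert h1 using 1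
      ext z
      simp [V, h]
    · convert MeasurableSet.empty using 1
      ext z
      simp [V, h]
  obtain ⟨q, hq, m, hm⟩ := exists_subcube p V hV (by
    intro z hz
    obtain ⟨m, h1, h2⟩ := hc z hz.comps (S.image fun σ ↦ md k σ z) (by
      intro x hx
      obtain ⟨σ, -, rfl⟩ := Finset.mem_image.1 hx
      exact E0_md k σ z)
    refine ⟨m, h1, fun σ hσ ↦ h2 ?_⟩
    simp only [Finset.coe_image, mem_image]
    exact ⟨σ, hσ, rfl⟩)
  have hinf : {n | (if n < k then p.f n else q.f n) = none}.Infinite := by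
    have h1 : ({n | q.f n = none} \ {n | n < k}).Infinite :=
      q.inf.sdiff (Set.finite_lt_nat k)
    refine h1.mono ?_
    rintro n ⟨hn, hn'⟩
    change (if n < k then p.f n else q.f n) = none
    rw [if_neg (show ¬ n < k from hn')]
    exact hn
  have key : ∀ z : Pt, (∀ n, k ≤ n → q.f n ≠ none → q.f n = some (z n)) →
      ↑F ⊆ U m ∧ ∀ σ ∈ S, md k σ z ∈ U m := by
    intro z hz
    let z' : Pt := md k (fun n ↦ (q.f n).getD false) z
    have hz' : Comp q z' := by
      intro n hn
      by_cases hnk : n < k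
      · change _ = some (md k _ z n)
        rw [md_lt hnk]
        cases h : q.f n with
        | some b => rfl
        | none => exact absurd h hn
      · change _ = some (md k _ z n)
        rw [md_ge (not_lt.1 hnk)]
        exact hz n (not_lt.1 hnk) hn
    obtain ⟨h1, h2⟩ := hm z' hz'
    refine ⟨h1, fun σ hσ ↦ ?_⟩
    have h3 := h2 σ hσ
    have h4 : md k σ z' = md k σ z := by
      funext n
      by_cases hnk : n < k
      · rw [md_lt hnk, md_lt hnk]
      · rw [md_ge (not_lt.1 hnk), md_ge (not_lt.1 hnk)]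
        exact md_ge (not_lt.1 hnk)
    rwa [h4] at h3
  refine ⟨⟨fun n ↦ if n < k then p.f n else q.f n, hinf⟩, ?_, fun n hn ↦ if_pos hn, m, ?_, ?_⟩
  · intro n hn
    change (if n < k then p.f n else q.f n) = p.f n
    split_ifs with h
    · rfl
    · exact hq n hn
  · obtain ⟨z0, hz0⟩ : ∃ z0, Comp q z0 := ⟨_, comp_emb q (fun _ ↦ false)⟩
    exact (key z0 fun n _ hn ↦ hz0 n hn).1
  · intro z hz
    have h1 := (key z (by
      intro n hn hn'
      have h2 := hz n hn
      change (if n < k then p.f n else q.f n) ≠ none →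
        (if n < k then p.f n else q.f n) = some (z n) at h2
      rw [if_neg (not_lt.2 hn)] at h2
      exact h2 hn')).2
    obtain ⟨σ, hσ, hσz⟩ := hS z
    have h2 := h1 σ hσ
    have h3 : md k σ z = z := by
      funext n
      by_cases hnk : n < k
      · rw [md_lt hnk, hσz n hnk]
      · exact md_ge (not_lt.1 hnk)
    rwa [h3] at h2

/-- Main lemma. -/
lemma main_fusion (p : Cond) (S : Set Pt) (hS : S.Countable) (U : ℕ → ℕ → Set Pt)
    (hU : ∀ n m, MeasurableSet (U n m))
    (hc : ∀ y, Comps p y → ∀ n, ∀ F : Finset Pt, (∀ x ∈ F, x ∈ S ∨ E0 x y) →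
      ∃ m, ↑F ⊆ U n m) :
    ∃ q : Cond, Ext q p ∧ ∃ m : ℕ → ℕ, ∀ z, (z ∈ S ∨ Comps q z) → ∀ᶠ n in atTop, z ∈ U n (m n) := by
  classical
  -- finite approximations of S
  obtain ⟨e, he⟩ := Set.countable_iff_exists_injOn.1 hS
  have hfin : ∀ n : ℕ, {x | x ∈ S ∧ e x ≤ n}.Finite := by
    intro n
    refine Set.Finite.of_finite_image (f := e) ((Set.finite_le_nat n).subset ?_) ?_
    · rintro _ ⟨x, hx, rfl⟩
      exact hx.2
    · exact he.mono fun x hx ↦ hx.1
  let F : ℕ → Finset Pt := fun n ↦ (hfin n).toFinset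
  have hF : ∀ n x, x ∈ F n ↔ x ∈ S ∧ e x ≤ n := fun n x ↦ by simp [F]
  have step : ∀ (n : ℕ) (s : {s : Cond × ℕ // Ext s.1 p}),
      ∃ s' : {s : Cond × ℕ // Ext s.1 p}, ∃ m : ℕ,
      Ext s'.1.1 s.1.1 ∧ s.1.2 < s'.1.2 ∧ (∀ i < s.1.2, s'.1.1.f i = s.1.1.f i) ∧
      (∃ i, s.1.2 ≤ i ∧ i < s'.1.2 ∧ s'.1.1.f i = none) ∧ ↑(F n) ⊆ U n m ∧
      ∀ z : Pt, (∀ i, s.1.2 ≤ i → s'.1.1.f i ≠ none → s'.1.1.f i = some (z i)) → z ∈ U n m := by
    rintro n ⟨⟨p', k⟩, hp'⟩
    obtain ⟨q, hq, hqk, m, hFm, hm⟩ := fusion_step p' k (F n) (U n) (hU n) (by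
      intro y hy G hG
      obtain ⟨m, hm⟩ := hc y (hy.mono (Ext.exts hp')) n (F n ∪ G) (by
        intro x hx
        rcases Finset.mem_union.1 hx with h | h
        · exact Or.inl ((hF n x).1 h).1
        · exact Or.inr (hG x h))
      rw [Finset.coe_union] at hm
      exact ⟨m, subset_union_left.trans hm, subset_union_right.trans hm⟩)
    obtain ⟨i, hi, hik⟩ := q.inf.exists_gt k
    refine ⟨⟨⟨q, i + 1⟩, hq.trans hp'⟩, m, hq, ?_, hqk, ⟨i, hik.le, ?_, hi⟩, hFm, hm⟩
    · dsimp only
      omega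
    · dsimp only
      omega
  choose next mm h1 h2 h3 h4 h5 h6 using step
  let s0 : {s : Cond × ℕ // Ext s.1 p} := ⟨⟨p, 0⟩, Ext.refl p⟩
  let seq : ℕ → {s : Cond × ℕ // Ext s.1 p} := fun j ↦ Nat.rec s0 (fun j s ↦ next j s) j
  have hseq : ∀ j, seq (j + 1) = next j (seq j) := fun j ↦ rfl
  have hmono : StrictMono (fun j ↦ (seq j).1.2) :=
    strictMono_nat_of_lt_succ fun j ↦ by simp only [hseq]; exact h2 j (seq j)
  obtain ⟨q, hq⟩ := glue (fun j ↦ (seq j).1.2) (fun j ↦ (seq j).1.1.f)
    (fun j ↦ by simp only [hseq]; exact h2 j (seq j))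
    (fun j n hn ↦ by simp only [hseq]; exact h3 j (seq j) n hn)
  have hext : ∀ j i, Ext (seq (j + i)).1.1 (seq j).1.1 := by
    intro j i
    induction i with
    | zero => exact Ext.refl _
    | succ i ih => exact Ext.trans (h1 (j + i) (seq (j + i))) ih
  have hqext : ∀ j n, (seq j).1.1.f n ≠ none → q n = (seq j).1.1.f n := by
    intro j n hn
    have h7 : n < (seq (j + (n + 1))).1.2 :=
      lt_of_lt_of_le (by omega : n < j + (n + 1)) (hmono.id_le _)
    rw [hq (j + (n + 1)) n h7]
    exact hext j (n + 1) n hn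
  have hinf : {n | q n = none}.Infinite := by
    rw [Set.infinite_iff_exists_gt]
    intro a
    obtain ⟨i, hi, hi', hi''⟩ := h4 (a + 1) (seq (a + 1))
    rw [← hseq] at hi' hi''
    refine ⟨i, ?_, ?_⟩
    · have := hq (a + 2) i hi'
      change q i = none
      rw [this]
      exact hi''
    · have : a + 1 ≤ (seq (a + 1)).1.2 := hmono.id_le (a + 1)
      omega
  refine ⟨⟨q, hinf⟩, hqext 0, fun n ↦ mm n (seq n), ?_⟩
  rintro z (hz | hz)
  · filter_upwards [eventually_ge_atTop (e z)] with n hn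
    exact h5 n (seq n) (Finset.mem_coe.2 ((hF n z).2 ⟨hz, hn⟩))
  · obtain ⟨a, ha⟩ := eventually_atTop.1 hz
    filter_upwards [eventually_ge_atTop a] with n hn
    refine h6 n (seq n) z fun i hi hi' ↦ ?_
    rw [← hseq] at hi' ⊢
    have h8 := hqext (n + 1) i hi'
    have h9 : n ≤ (seq n).1.2 := hmono.id_le n
    rw [← h8] at hi' ⊢
    exact ha i (by omega) hi'

end Pool.Agent.H66.BP
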