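import Mathlib
import Pool.Agent.H66.BPFusion

/-!
Lower bounds of countable chains of conditions, thinning out, avoiding countable sets.
-/

open Set Filter Topology

namespace Pool.Agent.H66.BP

lemma lower_bound_nat (p : ℕ → Cond) (hp : ∀ i j, Exts (p i) (p j) ∨ Exts (p j) (p i)) :
    ∃ q : Cond, ∀ i, Exts q (p i) := by
  -- minima of initial segments
  have hmin : ∀ n, ∃ i0, ∀ i ≤ n, Exts (p i0) (p i) := by
    intro n
    induction n with
    | zero => exact ⟨0, fun i hi ↦ by rw [Nat.le_zero.1 hi]; exact Exts.refl _⟩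
    | succ n ih =>
      obtain ⟨i0, hi0⟩ := ih
      rcases hp i0 (n + 1) with h | h
      · refine ⟨i0, fun i hi ↦ ?_⟩
        rcases Nat.lt_or_ge n i with h' | h'
        · have : i = n + 1 := by omega
          rw [this]
          exact h
        · exact hi0 i h'
      · refine ⟨n + 1, fun i hi ↦ ?_⟩
        rcases Nat.lt_or_ge n i with h' | h'
        · have : i = n + 1 := by omega
          rw [this]
          exact Exts.refl _
        · exact h.trans (hi0 i h')
  choose m hm using hmin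
  -- thresholds
  have hK : ∀ n, ∃ K, ∀ j ≥ K, ∀ i ≤ n, (p i).f j ≠ none → (p (m n)).f j = (p i).f j := by
    intro n
    have h1 : ∀ᶠ j in atTop, ∀ i ∈ Finset.range (n + 1),
        (p i).f j ≠ none → (p (m n)).f j = (p i).f j := by
      rw [Filter.eventually_all_finset]
      intro i hi
      exact hm n i (by rw [Finset.mem_range] at hi; omega)
    obtain ⟨K, hK⟩ := eventually_atTop.1 h1
    exact ⟨K, fun j hj i hi ↦ hK j hj i (by rw [Finset.mem_range]; omega)⟩
  choose K hK using hK
  have hfree : ∀ n a, ∃ i, a ≤ i ∧ (p (m n)).f i = none := by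
    intro n a
    obtain ⟨i, hi, hia⟩ := (p (m n)).inf.exists_gt a
    exact ⟨i, hia.le, hi⟩
  choose fr hfr1 hfr2 using hfree
  let k : ℕ → ℕ := fun n ↦ Nat.rec (K 0) (fun n a ↦ max (K (n + 1)) (fr n a + 1)) n
  have hk : ∀ n, k (n + 1) = max (K (n + 1)) (fr n (k n) + 1) := fun n ↦ rfl
  have hkK : ∀ n, K n ≤ k n := by
    intro n
    cases n with
    | zero => exact le_rfl
    | succ n => rw [hk]; exact le_max_left _ _
  have hklt : ∀ n, k n < k (n + 1) := by
    intro n
    rw [hk]
    exact lt_of_lt_of_le (Nat.lt_succ_of_le (hfr1 n (k n))) (le_max_right _ _)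
  have hmono : StrictMono k := strictMono_nat_of_lt_succ hklt
  have hex : ∀ j, ∃ n, j < k (n + 1) := fun j ↦
    ⟨j, lt_of_lt_of_le (Nat.lt_succ_self j) (hmono.id_le (j + 1))⟩
  classical
  let N : ℕ → ℕ := fun j ↦ Nat.find (hex j)
  have hN1 : ∀ j, j < k (N j + 1) := fun j ↦ Nat.find_spec (hex j)
  have hN2 : ∀ i j, k i ≤ j → i ≤ N j := by
    intro i j hij
    by_contra h
    have h1 : k (N j + 1) ≤ k i := hmono.monotone (show N j + 1 ≤ i by omega)
    have h2 := hN1 j
    omega
  have hN3 : ∀ j, k 0 ≤ j → k (N j) ≤ j := by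
    intro j hj
    rcases Nat.eq_zero_or_pos (N j) with h0 | h0
    · rw [h0]
      exact hj
    · have h1 : ¬ j < k (N j - 1 + 1) := Nat.find_min (hex j) (show N j - 1 < N j by omega)
      rw [Nat.sub_add_cancel (by omega)] at h1
      exact not_lt.1 h1
  have hinf : {j | (p (m (N j))).f j = none}.Infinite := by
    rw [Set.infinite_iff_exists_gt]
    intro a
    refine ⟨fr (a + 1) (k (a + 1)), ?_, ?_⟩
    · have h1 : k (a + 1) ≤ fr (a + 1) (k (a + 1)) := hfr1 _ _
      have h2 : fr (a + 1) (k (a + 1)) < k (a + 2) := by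
        rw [hk]
        exact lt_of_lt_of_le (Nat.lt_succ_self _) (le_max_right _ _)
      have h3 : N (fr (a + 1) (k (a + 1))) = a + 1 := by
        refine le_antisymm (Nat.find_min' _ h2) (hN2 _ _ h1)
      change (p (m (N (fr (a + 1) (k (a + 1)))))).f _ = none
      rw [h3]
      exact hfr2 _ _
    · have h1 : k (a + 1) ≤ fr (a + 1) (k (a + 1)) := hfr1 _ _
      have h2 : a + 1 ≤ k (a + 1) := hmono.id_le _
      omega
  refine ⟨⟨_, hinf⟩, fun i ↦ ?_⟩
  filter_upwards [eventually_ge_atTop (k i)] with j hj hne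
  have h1 : i ≤ N j := hN2 i j hj
  have h2 : k (N j) ≤ j := hN3 j ((hmono.monotone (Nat.zero_le i)).trans hj)
  exact hK (N j) j ((hkK _).trans h2) i h1 hne

/-- the trivial condition -/
def Cond.triv : Cond := ⟨fun _ ↦ none, by
  have : {n : ℕ | (fun _ ↦ (none : Option Bool)) n = none} = univ := by ext; simp
  rw [this]
  exact infinite_univ⟩

lemma lower_bound {ι : Type*} [Countable ι] (p : ι → Cond)
    (hp : ∀ i j, Exts (p i) (p j) ∨ Exts (p j) (p i)) : ∃ q : Cond, ∀ i, Exts q (p i) := by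
  rcases isEmpty_or_nonempty ι with h | h
  · exact ⟨Cond.triv, fun i ↦ h.elim i⟩
  · obtain ⟨f, hf⟩ := exists_surjective_nat ι
    obtain ⟨q, hq⟩ := lower_bound_nat (fun n ↦ p (f n)) (fun i j ↦ hp _ _)
    refine ⟨q, fun i ↦ ?_⟩
    obtain ⟨n, rfl⟩ := hf i
    exact hq n

lemma sparse (p : Cond) (g : ℕ → ℕ) : ∃ q : Cond, Ext q p ∧
    ∀ n, ((Finset.range (g n)).filter (fun k ↦ q.f k = none)).card ≤ n := by
  classical
  have hfree : ∀ a, ∃ i, a ≤ i ∧ p.f i = none := by
    intro a
    obtain ⟨i, hi, hia⟩ := p.inf.exists_gt a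
    exact ⟨i, hia.le, hi⟩
  choose fr hfr1 hfr2 using hfree
  let G : ℕ → ℕ := fun i ↦ (Finset.range (i + 1)).sup g
  let j : ℕ → ℕ := fun i ↦ Nat.rec (motive := fun _ ↦ ℕ) (fr (G 0))
    (fun i a ↦ fr (max (G (i + 1)) (a + 1))) i
  have hj : ∀ i, j (i + 1) = fr (max (G (i + 1)) (j i + 1)) := fun i ↦ rfl
  have hjlt : ∀ i, j i < j (i + 1) := by
    intro i
    rw [hj]
    exact lt_of_lt_of_le (Nat.lt_succ_self _) ((le_max_right _ _).trans (hfr1 _))
  have hmono : StrictMono j := strictMono_nat_of_lt_succ hjlt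
  have hjG : ∀ i, G i ≤ j i := by
    intro i
    cases i with
    | zero => exact hfr1 _
    | succ i => rw [hj]; exact (le_max_left _ _).trans (hfr1 _)
  have hjfree : ∀ i, p.f (j i) = none := by
    intro i
    cases i with
    | zero => exact hfr2 _
    | succ i => rw [hj]; exact hfr2 _
  let qf : ℕ → Option Bool := fun n ↦
    @ite _ (∃ i : ℕ, j i = n) (Classical.propDecidable _) none (some ((p.f n).getD false))
  have hqf1 : ∀ i, qf (j i) = none := fun i ↦ if_pos ⟨i, rfl⟩
  have hqf2 : ∀ n, (¬ ∃ i : ℕ, j i = n) → qf n = some ((p.f n).getD false) := fun n hn ↦ if_neg hn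
  have hinf : {n : ℕ | qf n = none}.Infinite := by
    refine (Set.infinite_range_of_injective hmono.injective).mono ?_
    rintro _ ⟨i, rfl⟩
    exact hqf1 i
  refine ⟨⟨qf, hinf⟩, ?_, ?_⟩
  · intro n hn
    have h1 : ¬ ∃ i : ℕ, j i = n := by
      rintro ⟨i, rfl⟩
      exact hn (hjfree i)
    change qf n = p.f n
    rw [hqf2 n h1]
    cases h : p.f n with
    | some b => rfl
    | none => exact absurd h hn
  · intro n
    have hsub : (Finset.range (g n)).filter (fun k ↦ qf k = none) ⊆ (Finset.range n).image j := by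
      intro k hk
      rw [Finset.mem_filter, Finset.mem_range] at hk
      obtain ⟨hk1, hk2⟩ := hk
      rcases Classical.em (∃ i : ℕ, j i = k) with h | h
      · obtain ⟨i, rfl⟩ := h
        refine Finset.mem_image_of_mem _ (Finset.mem_range.2 ?_)
        by_contra hi
        have h2 : g n ≤ G i := Finset.le_sup (f := g) (Finset.mem_range.2 (by omega))
        have h3 := hjG i
        omega
      · rw [hqf2 k h] at hk2
        exact absurd hk2 (by simp)
    exact (Finset.card_le_card hsub).trans (Finset.card_image_le.trans (by simp))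

lemma avoid (p : Cond) {S : Set Pt} (hS : S.Countable) : ∃ y, Comp p y ∧ y ∉ S := by
  rcases S.eq_empty_or_nonempty with rfl | hne
  · exact ⟨_, comp_emb p fun _ ↦ false, fun h ↦ h⟩
  · obtain ⟨s, rfl⟩ := hS.exists_eq_range hne
    refine ⟨_, comp_emb p fun i ↦ ! (s i (Nat.nth p.Free i)), ?_⟩
    rintro ⟨i, hi⟩
    have h1 := congrFun hi (Nat.nth p.Free i)
    rw [emb_none (nth_free p i), Nat.count_nth_of_infinite (p := p.Free) p.inf] at h1
    simp at h1

lemma E0_countable (y : Pt) : {x | E0 x y}.Countable := by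
  classical
  have h1 : {x | E0 x y} ⊆ ⋃ k : ℕ, {x | ∀ n, k ≤ n → x n = y n} := by
    intro x hx
    obtain ⟨k, hk⟩ := eventually_atTop.1 hx
    exact mem_iUnion.2 ⟨k, hk⟩
  refine (Set.countable_iUnion fun k ↦ ?_).mono h1
  obtain ⟨S, hS⟩ := exists_reps k
  refine ((S.image fun σ ↦ md k σ y).finite_toSet.subset ?_).countable
  intro x hx
  obtain ⟨σ, hσ, hσx⟩ := hS x
  simp only [Finset.coe_image, mem_image]
  refine ⟨σ, hσ, ?_⟩
  funext n
  by_cases hn : n < k
  · rw [md_lt hn, hσx n hn]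
  · rw [md_ge (not_lt.1 hn), hx n (not_lt.1 hn)]

end Pool.Agent.H66.BP
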