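import Mathlib
import Pool.Agent.H66.BPConds

/-!
The transfinite construction under CH.
-/

open Set Filter Topology

namespace Pool.Agent.H66.BP

/-- well-founded recursion with a specification -/
lemma wf_choice {W Out : Type*} [LinearOrder W] [WellFoundedLT W] [Inhabited Out]
    (Spec : ∀ a : W, (∀ b, b < a → Out) → Out → Prop)
    (hstep : ∀ (a : W) (f : W → Out), (∀ c < a, Spec c (fun b _ ↦ f b) (f c)) →
      ∃ o, Spec a (fun b _ ↦ f b) o) :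
    ∃ f : W → Out, ∀ a, Spec a (fun b _ ↦ f b) (f a) := by
  classical
  let F : ∀ a : W, (∀ b, b < a → Out) → Out := fun a ih ↦
    if h : ∃ o, Spec a ih o then h.choose else default
  let f : W → Out := (wellFounded_lt (α := W)).fix F
  have hf : ∀ a, f a = F a (fun b _ ↦ f b) := fun a ↦ WellFounded.fix_eq _ _ _
  refine ⟨f, fun a ↦ ?_⟩
  induction a using WellFoundedLT.induction with
  | ind a ih =>
    have h := hstep a f ih
    have h2 : f a = h.choose := by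
      rw [hf a]
      exact dif_pos h
    rw [h2]
    exact h.choose_spec

/-- the tasks -/
abbrev Task := (ℕ → ℕ → {s : Set Pt // MeasurableSet s}) × (ℕ → ℕ)

open Cardinal in
lemma card_borel : #{s : Set Pt // MeasurableSet s} ≤ 𝔠 := by
  obtain ⟨b, hb, hgen⟩ := MeasurableSpace.CountablyGenerated.isCountablyGenerated (α := Pt)
  have h1 : #b ≤ 𝔠 := hb.le_aleph0.trans aleph0_le_continuum
  have h2 := MeasurableSpace.cardinal_measurableSet_le_continuum h1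
  rw [← hgen] at h2
  exact h2

open Cardinal in
lemma card_task : #Task ≤ 𝔠 := by
  have h1 : #(ℕ → ℕ → {s : Set Pt // MeasurableSet s}) ≤ 𝔠 := by
    calc #(ℕ → ℕ → {s : Set Pt // MeasurableSet s}) =
        (#{s : Set Pt // MeasurableSet s} ^ (ℵ₀ : Cardinal.{0})) ^ (ℵ₀ : Cardinal.{0}) := by simp
      _ ≤ (𝔠 ^ (ℵ₀ : Cardinal.{0})) ^ (ℵ₀ : Cardinal.{0}) :=
        power_le_power_right (power_le_power_right card_borel)
      _ = 𝔠 := by simp
  have h2 : #(ℕ → ℕ) ≤ 𝔠 := by simp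
  calc #Task = #(ℕ → ℕ → {s : Set Pt // MeasurableSet s}) * #(ℕ → ℕ) := by simp
    _ ≤ 𝔠 * 𝔠 := mul_le_mul' h1 h2
    _ = 𝔠 := by simp

/-- one step of the construction -/
lemma step_exists {ι : Type*} [Countable ι] (h : ι → Cond × Set Pt)
    (hch : ∀ i j, Exts (h i).1 (h j).1 ∨ Exts (h j).1 (h i).1)
    (hct : ∀ i, (h i).2.Countable) (t : Task) :
    ∃ o : Cond × Set Pt, (∀ i, Exts o.1 (h i).1) ∧ o.2.Countable ∧
      (∀ x y, E0 x y → x ∈ o.2 → y ∈ o.2) ∧ (∀ i, ∀ y ∈ o.2, Comps (h i).1 y) ∧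
      (∃ y ∈ o.2, Comps o.1 y ∧ ∀ i, y ∉ (h i).2) ∧
      ((∃ n, ∃ F : Finset Pt, (∀ x ∈ F, x ∈ o.2 ∨ ∃ i, x ∈ (h i).2) ∧
          ∀ m, ¬ (↑F ⊆ (t.1 n m).1)) ∨
        (∃ m : ℕ → ℕ, ∀ z, (z ∈ o.2 ∨ (∃ i, z ∈ (h i).2) ∨ Comps o.1 z) →
          ∀ᶠ n in atTop, z ∈ (t.1 n (m n)).1)) ∧
      ∀ n, ((Finset.range (t.2 n)).filter (fun k ↦ o.1.f k = none)).card ≤ n := by
  classical
  obtain ⟨p, hp⟩ := lower_bound (fun i ↦ (h i).1) hch
  let S : Set Pt := ⋃ i, (h i).2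
  have hS : S.Countable := Set.countable_iUnion hct
  have hmemS : ∀ x, x ∈ S ↔ ∃ i, x ∈ (h i).2 := fun x ↦ mem_iUnion
  by_cases hcase : ∃ y, Comps p y ∧ ∃ n, ∃ F : Finset Pt, (∀ x ∈ F, x ∈ S ∨ E0 x y) ∧
      ∀ m, ¬ (↑F ⊆ (t.1 n m).1)
  · obtain ⟨y, hy, n, F, hF, hFm⟩ := hcase
    obtain ⟨q, hq, hqs⟩ := sparse p t.2
    obtain ⟨y1, hy1, hy1S⟩ := avoid q hS
    have hqp := Ext.exts hq
    refine ⟨⟨q, {x | E0 x y} ∪ {x | E0 x y1}⟩, fun i ↦ hqp.trans (hp i),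
      (E0_countable y).union (E0_countable y1), ?_, ?_, ?_, ?_, hqs⟩
    · rintro x x' hxx (hx | hx)
      · exact Or.inl (hxx.symm.trans hx)
      · exact Or.inr (hxx.symm.trans hx)
    · rintro i x (hx | hx)
      · exact Comps.congr (Comps.mono (hp i) hy) (E0.symm hx)
      · exact Comps.congr (Comps.mono (hp i) (Comps.mono hqp hy1.comps)) (E0.symm hx)
    · exact ⟨y1, Or.inr (E0.refl y1), hy1.comps, fun i hi ↦ hy1S ((hmemS _).2 ⟨i, hi⟩)⟩
    · refine Or.inl ⟨n, F, fun x hx ↦ ?_, hFm⟩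
      rcases hF x hx with h1 | h1
      · exact Or.inr ((hmemS x).1 h1)
      · exact Or.inl (Or.inl h1)
  · push Not at hcase
    obtain ⟨q', hq', m, hm⟩ := main_fusion p S hS (fun n m ↦ (t.1 n m).1)
      (fun n m ↦ (t.1 n m).2) (fun y hy n F hF ↦ hcase y hy n F hF)
    obtain ⟨q, hq, hqs⟩ := sparse q' t.2
    obtain ⟨y1, hy1, hy1S⟩ := avoid q hS
    have hqq := Ext.exts hq
    have hqp : Exts q p := hqq.trans (Ext.exts hq')
    refine ⟨⟨q, {x | E0 x y1}⟩, fun i ↦ hqp.trans (hp i), E0_countable y1, ?_, ?_, ?_, ?_, hqs⟩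
    · intro x x' hxx hx
      exact hxx.symm.trans hx
    · intro i x hx
      exact Comps.congr (Comps.mono (hp i) (Comps.mono hqp hy1.comps)) (E0.symm hx)
    · exact ⟨y1, E0.refl y1, hy1.comps, fun i hi ↦ hy1S ((hmemS _).2 ⟨i, hi⟩)⟩
    · refine Or.inr ⟨m, fun z hz ↦ hm z ?_⟩
      rcases hz with hz | hz | hz
      · exact Or.inr (Comps.congr (Comps.mono hqq hy1.comps) (E0.symm hz))
      · exact Or.inl ((hmemS z).2 hz)
      · exact Or.inr (Comps.mono hqq hz)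

instance : Inhabited (Cond × Set Pt) := ⟨⟨Cond.triv, ∅⟩⟩

open Cardinal in
/-- The set constructed under CH, with its two key properties. -/
theorem exists_set (hCH : (𝔠 : Cardinal.{0}) = ℵ₁) : ∃ X : Set Pt,
    (∀ U : ℕ → ℕ → Set Pt, (∀ n m, MeasurableSet (U n m)) →
      (∀ n, ∀ F : Finset Pt, ↑F ⊆ X → ∃ m, ↑F ⊆ U n m) →
      ∃ m : ℕ → ℕ, ∀ x ∈ X, ∀ᶠ n in atTop, x ∈ U n (m n)) ∧
    (∀ g : ℕ → ℕ, ∃ x ∈ X, ∃ y ∈ X, ¬ E0 x y ∧
      ∀ n, ((Finset.range (g n)).filter (fun k ↦ x k ≠ y k)).card ≤ n) := by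
  classical
  -- the index type
  let W := (ℵ₁ : Cardinal.{0}).ord.ToType
  have hWc : ∀ a : W, Countable {b // b < a} := by
    intro a
    have h1 : #(Iio a) < ℵ₁ := by simpa [W] using mk_Iio_lt a (by simp [W])
    have h2 : #(Iio a) ≤ ℵ₀ := by
      have h2 : #(Iio a) < Order.succ ℵ₀ := by
        rw [succ_aleph0]
        exact h1
      exact Order.lt_succ_iff.1 h2
    exact (Set.countable_coe_iff.2 (le_aleph0_iff_set_countable.1 h2))
  have hWu : ¬ Countable W := by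
    rw [← mk_le_aleph0_iff, not_le]
    simp [W]
  -- the enumeration of the tasks
  have hcard : #Task ≤ #W := by
    have : #W = ℵ₁ := by simp [W]
    rw [this, ← hCH]
    exact card_task
  obtain ⟨ι⟩ := hcard
  have : Nonempty Task := ⟨⟨fun _ _ ↦ ⟨∅, MeasurableSet.empty⟩, fun _ ↦ 0⟩⟩
  let t : W → Task := Function.invFun ι
  have ht : Function.Surjective t := Function.invFun_surjective ι.injective
  -- the recursion
  obtain ⟨f, hf⟩ := wf_choice (W := W) (Out := Cond × Set Pt)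
    (fun a h o ↦ (∀ i : {b // b < a}, Exts o.1 (h i.1 i.2).1) ∧ o.2.Countable ∧
      (∀ x y, E0 x y → x ∈ o.2 → y ∈ o.2) ∧
      (∀ i : {b // b < a}, ∀ y ∈ o.2, Comps (h i.1 i.2).1 y) ∧
      (∃ y ∈ o.2, Comps o.1 y ∧ ∀ i : {b // b < a}, y ∉ (h i.1 i.2).2) ∧
      ((∃ n, ∃ F : Finset Pt, (∀ x ∈ F, x ∈ o.2 ∨ ∃ i : {b // b < a}, x ∈ (h i.1 i.2).2) ∧
          ∀ m, ¬ (↑F ⊆ ((t a).1 n m).1)) ∨
        (∃ m : ℕ → ℕ, ∀ z, (z ∈ o.2 ∨ (∃ i : {b // b < a}, z ∈ (h i.1 i.2).2) ∨ Comps o.1 z) →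
          ∀ᶠ n in atTop, z ∈ ((t a).1 n (m n)).1)) ∧
      ∀ n, ((Finset.range ((t a).2 n)).filter (fun k ↦ o.1.f k = none)).card ≤ n) (by
    intro a f hf
    have := hWc a
    refine step_exists (fun i : {b // b < a} ↦ f i.1) ?_ ?_ (t a)
    · rintro ⟨i, hi⟩ ⟨j, hj⟩
      rcases lt_trichotomy i j with hij | rfl | hij
      · exact Or.inr ((hf j hj).1 ⟨i, hij⟩)
      · exact Or.inl (Exts.refl _)
      · exact Or.inl ((hf i hi).1 ⟨j, hij⟩)
    · rintro ⟨i, hi⟩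
      exact (hf i hi).2.1)
  refine ⟨⋃ a, (f a).2, ?_, ?_⟩
  · intro U hU hcov
    obtain ⟨a, ha⟩ := ht ⟨fun n m ↦ ⟨U n m, hU n m⟩, fun _ ↦ 0⟩
    obtain ⟨-, -, -, -, -, hor, -⟩ := hf a
    rcases hor with ⟨n, F, hF, hFm⟩ | ⟨m, hm⟩
    · exfalso
      obtain ⟨m, hm⟩ := hcov n F (by
        intro x hx
        rcases hF x hx with h1 | ⟨i, h1⟩
        · exact mem_iUnion.2 ⟨a, h1⟩
        · exact mem_iUnion.2 ⟨i.1, h1⟩)
      refine hFm m ?_
      rw [ha]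
      exact hm
    · refine ⟨m, fun x hx ↦ ?_⟩
      obtain ⟨b, hb⟩ := mem_iUnion.1 hx
      have h1 := hm x (by
        rcases lt_trichotomy a b with hab | rfl | hab
        · exact Or.inr (Or.inr ((hf b).2.2.2.1 ⟨a, hab⟩ x hb))
        · exact Or.inl hb
        · exact Or.inr (Or.inl ⟨⟨b, hab⟩, hb⟩))
      rw [ha] at h1
      exact h1
  · intro g
    obtain ⟨a, ha⟩ := ht ⟨fun _ _ ↦ ⟨∅, MeasurableSet.empty⟩, g⟩
    obtain ⟨a', haa'⟩ : ∃ a', a < a' := by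
      by_contra hcon
      push Not at hcon
      apply hWu
      have h1 : (univ : Set W) ⊆ insert a (Iio a) := by
        intro b _
        rcases (hcon b).lt_or_eq with h | h
        · exact Or.inr h
        · exact Or.inl h
      have h2 : (Iio a).Countable := Set.countable_coe_iff.1 (hWc a)
      exact Set.countable_univ_iff.1 ((h2.insert a).mono h1)
    obtain ⟨-, -, hE, -, ⟨x, hx, hxc, -⟩, -, hsp⟩ := hf a
    obtain ⟨-, -, hE', hC', ⟨y, hy, -, hyn⟩, -, -⟩ := hf a'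
    have hyc : Comps (f a).1 y := hC' ⟨a, haa'⟩ y hy
    have hne : ¬ E0 x y := fun h ↦ hyn ⟨a, haa'⟩ (hE x y h hx)
    obtain ⟨k, hk⟩ := eventually_atTop.1 (hxc.and hyc)
    have hE1 : E0 (md k x y) y := E0_md k x y
    refine ⟨x, mem_iUnion.2 ⟨a, hx⟩, md k x y, mem_iUnion.2 ⟨a', hE' _ _ hE1.symm hy⟩,
      fun h ↦ hne (h.trans hE1), fun n ↦ ?_⟩
    have h3 := hsp n
    rw [ha] at h3
    refine le_trans (Finset.card_le_card ?_) h3
    intro i hi
    rw [Finset.mem_filter] at hi ⊢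
    refine ⟨hi.1, ?_⟩
    by_contra hne'
    rcases lt_or_ge i k with hik | hik
    · exact hi.2 (md_lt hik).symm
    · have h4 := hk i hik
      have h5 := h4.1 hne'
      have h6 := h4.2 hne'
      rw [h5] at h6
      apply hi.2
      rw [md_ge hik]
      exact Option.some.inj h6

end Pool.Agent.H66.BP
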