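import Mathlib

open CategoryTheory PartialOrder SSet Simplicial Opposite

namespace Pool.Agent.H66

universe u

section chains

variable {P Q W : Type u} [PartialOrder P] [PartialOrder Q] [PartialOrder W]

lemma mem_map {f : P →o Q} {c : NonemptyFiniteChains P} {y : Q} :
    y ∈ (NonemptyFiniteChains.orderHomMap f c).finset ↔ ∃ x, x ∈ c.finset ∧ f x = y :=
  NonemptyFiniteChains.mem_map_iff _ _ _

lemma ch_ext {c d : NonemptyFiniteChains P} (h : ∀ x : P, x ∈ c.finset ↔ x ∈ d.finset) : c = d :=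
  NonemptyFiniteChains.ext (Finset.ext h)

/-- order embeddings -/
def Emb (f : P →o Q) : Prop := ∀ x y : P, f x ≤ f y → x ≤ y

lemma Emb.inj {f : P →o Q} (hf : Emb f) {x y : P} (h : f x = f y) : x = y :=
  le_antisymm (hf _ _ h.le) (hf _ _ h.ge)

lemma Emb.ch {f : P →o Q} (hf : Emb f) : Emb (NonemptyFiniteChains.orderHomMap f) := by
  intro c d h x hx
  have h1 : f x ∈ (NonemptyFiniteChains.orderHomMap f d).finset :=
    h (mem_map.2 ⟨x, hx, rfl⟩)
  obtain ⟨y, hy, hxy⟩ := mem_map.1 h1
  rwa [← hf.inj hxy]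

/-- lifting a chain along an embedding -/
lemma exists_lift_chain {f : P →o Q} (hf : Emb f) (c : NonemptyFiniteChains Q)
    (hc : ∀ x ∈ c.finset, ∃ q, f q = x) :
    ∃ e : NonemptyFiniteChains P, NonemptyFiniteChains.orderHomMap f e = c := by
  classical
  have hmem : ∀ x, x ∈ c.finset.preimage f (fun x _ y _ h ↦ hf.inj h) ↔ f x ∈ c.finset :=
    fun x ↦ Finset.mem_preimage
  refine ⟨
    { finset := c.finset.preimage f (fun x _ y _ h ↦ hf.inj h)
      nonempty := by
        obtain ⟨x, hx⟩ := c.nonempty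
        obtain ⟨q, rfl⟩ := hc x hx
        exact ⟨q, (hmem q).2 hx⟩
      comparable := by
        rintro ⟨a, ha⟩ ⟨b, hb⟩
        rw [hmem] at ha hb
        rcases c.comparable ⟨_, ha⟩ ⟨_, hb⟩ with h | h
        · exact Or.inl (hf _ _ h)
        · exact Or.inr (hf _ _ h) }, ?_⟩
  apply ch_ext
  intro x
  rw [mem_map]
  constructor
  · rintro ⟨y, hy, rfl⟩
    exact (hmem y).1 hy
  · intro hx
    obtain ⟨q, rfl⟩ := hc x hx
    exact ⟨q, (hmem q).2 hx, rfl⟩

/-- lifting a monotone map into chains along an embedding -/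
lemma exists_lift_map {f : P →o Q} (hf : Emb f) (c : W →o NonemptyFiniteChains Q)
    (hc : ∀ w, ∀ x ∈ (c w).finset, ∃ q, f q = x) :
    ∃ e : W →o NonemptyFiniteChains P, (NonemptyFiniteChains.orderHomMap f).comp e = c := by
  choose g hg using fun w ↦ exists_lift_chain hf (c w) (hc w)
  refine ⟨⟨g, fun w w' h ↦ hf.ch _ _ ?_⟩, ?_⟩
  · rw [hg, hg]
    exact c.monotone h
  · ext1
    funext w
    exact hg w

/-- every finite chain is the image of some `[r]` under an order embedding. -/
lemma exists_enum (c : NonemptyFiniteChains P) :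
    ∃ (r : ℕ) (f : ULift.{u} (Fin (r + 1)) →o P), Emb f ∧
      ∀ x : P, x ∈ c.finset ↔ ∃ q, f q = x := by
  classical
  let S := c.finset
  let _ : LinearOrder S :=
    { (inferInstance : PartialOrder S) with
      le_total := fun a b ↦ c.comparable a b
      toDecidableLE := Classical.decRel _
      toDecidableEq := Classical.decEq _
      toDecidableLT := Classical.decRel _ }
  have hS : 0 < Fintype.card S := by
    rw [Fintype.card_pos_iff]
    obtain ⟨x, hx⟩ := c.nonempty
    exact ⟨⟨x, hx⟩⟩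
  obtain ⟨r, hr⟩ : ∃ r, Fintype.card S = r + 1 := ⟨Fintype.card S - 1, by omega⟩
  let e : Fin (r + 1) ≃o S := (Fintype.orderIsoFinOfCardEq S hr)
  refine ⟨r, ⟨fun i ↦ (e i.down : P), ?_⟩, ?_, ?_⟩
  · intro i j h
    exact e.monotone h
  · intro i j h
    have : e i.down ≤ e j.down := h
    exact e.le_iff_le.1 this
  · intro x
    constructor
    · intro hx
      refine ⟨ULift.up (e.symm ⟨x, hx⟩), ?_⟩
      change ((e (e.symm ⟨x, hx⟩) : S) : P) = x
      simp
    · rintro ⟨q, rfl⟩
      exact (e q.down).2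

end chains

end Pool.Agent.H66
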