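import Mathlib
import Pool.Agent.H66.ExChains

open CategoryTheory PartialOrder SSet Simplicial Opposite

namespace Pool.Agent.H66

universe u

section transfer

variable {P Q : Type u} [PartialOrder P] [PartialOrder Q] {Y : SSet.{u}}

/-- nerve of a monotone map -/
abbrev nv (f : P →o Q) : nerve P ⟶ nerve Q := nerveMap f.monotone.functor

/-- monotone map on chains -/
noncomputable abbrev chm (f : P →o Q) : NonemptyFiniteChains P →o NonemptyFiniteChains Q :=
  NonemptyFiniteChains.orderHomMap f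

/-- the monotone map attached to a simplex of the nerve -/
def toOH {m : SimplexCategory} (σ : (nerve P).obj (op m)) : ULift.{u} (Fin (m.len + 1)) →o P :=
  ⟨fun i ↦ σ.obj i.down, fun _ _ h ↦ leOfHom (σ.map (homOfLE h))⟩

/-- the simplex of the nerve attached to a monotone map -/
def ofOH {m : SimplexCategory} (τ : ULift.{u} (Fin (m.len + 1)) →o P) : (nerve P).obj (op m) :=
  (show Monotone (fun i : Fin (m.len + 1) ↦ τ (ULift.up i)) from
    fun _ _ h ↦ τ.monotone h).functor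

lemma toOH_ofOH {m : SimplexCategory} (τ : ULift.{u} (Fin (m.len + 1)) →o P) :
    toOH (ofOH τ) = τ := rfl

lemma ofOH_toOH {m : SimplexCategory} (σ : (nerve P).obj (op m)) :
    ofOH (toOH σ) = σ := nerve.ext_of_isThin rfl

/-- `[m] → [m']` ulifted -/
abbrev upm {m m' : SimplexCategory} (θ : m ⟶ m') :
    ULift.{u} (Fin (m.len + 1)) →o ULift.{u} (Fin (m'.len + 1)) :=
  (SimplexCategory.toPartOrd.{u}.map θ).hom

lemma toOH_map {m m' : SimplexCategory} (θ : m ⟶ m') (σ : (nerve P).obj (op m')) :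
    toOH ((nerve P).map θ.op σ) = (toOH σ).comp (upm θ) := rfl

lemma ofOH_comp {m m' : SimplexCategory} (θ : m ⟶ m') (τ : ULift.{u} (Fin (m'.len + 1)) →o P) :
    ofOH (τ.comp (upm θ)) = (nerve P).map θ.op (ofOH τ) := rfl

lemma toOH_nv {m : SimplexCategory} (f : P →o Q) (σ : (nerve P).obj (op m)) :
    toOH ((nv f).app (op m) σ) = f.comp (toOH σ) := rfl

lemma chm_comp {R : Type u} [PartialOrder R] (f : P →o Q) (g : Q →o R) :
    chm (g.comp f) = (chm g).comp (chm f) := by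
  ext1
  funext c
  apply ch_ext
  intro x
  simp only [OrderHom.comp_coe, Function.comp_apply]
  rw [mem_map, mem_map]
  constructor
  · rintro ⟨y, hy, rfl⟩
    exact ⟨f y, mem_map.2 ⟨y, hy, rfl⟩, rfl⟩
  · rintro ⟨y, hy, rfl⟩
    obtain ⟨z, hz, rfl⟩ := mem_map.1 hy
    exact ⟨z, hz, rfl⟩

lemma nv_comp {R : Type u} [PartialOrder R] (f : P →o Q) (g : Q →o R) :
    nv (g.comp f) = nv f ≫ nv g := rfl

lemma sd_map_eq {m m' : SimplexCategory} (θ : m ⟶ m') :
    SimplexCategory.sd.{u}.map θ = nv (chm (upm θ)) := rfl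

/-- from a map out of the nerve of chains to a map into `ex` -/
noncomputable def toEx (g : nerve (NonemptyFiniteChains P) ⟶ Y) : nerve P ⟶ SSet.ex.obj Y where
  app m := ↾fun σ ↦ ULift.up (nv (chm (toOH (m := m.unop) σ)) ≫ g)
  naturality m m' θ := by
    ext σ
    apply ULift.ext
    change nv (chm ((toOH (m := m.unop) σ).comp (upm θ.unop))) ≫ g =
      nv (chm (upm θ.unop)) ≫ nv (chm (toOH (m := m.unop) σ)) ≫ g
    rw [chm_comp, nv_comp, Category.assoc]


/-- evaluation of a map into `ex` -/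
noncomputable def ev (f : nerve P ⟶ SSet.ex.obj Y) {m : ℕ} (τ : ULift.{u} (Fin (m + 1)) →o P) :
    nerve (NonemptyFiniteChains (ULift.{u} (Fin (m + 1)))) ⟶ Y :=
  (f.app (op ⦋m⦌) (ofOH (m := ⦋m⦌) τ)).down

lemma exists_upm {s r : ℕ} (π : ULift.{u} (Fin (s + 1)) →o ULift.{u} (Fin (r + 1))) :
    ∃ θ : ⦋s⦌ ⟶ ⦋r⦌, upm θ = π :=
  ⟨SimplexCategory.Hom.mk ⟨fun i ↦ (π (ULift.up i)).down, fun _ _ h ↦ π.monotone h⟩, rfl⟩

lemma ev_comp (f : nerve P ⟶ SSet.ex.obj Y) {s r : ℕ} (τ : ULift.{u} (Fin (r + 1)) →o P)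
    (π : ULift.{u} (Fin (s + 1)) →o ULift.{u} (Fin (r + 1))) :
    ev f (τ.comp π) = nv (chm π) ≫ ev f τ := by
  obtain ⟨θ, rfl⟩ := exists_upm π
  have h := f.naturality_apply θ.op (ofOH (m := ⦋r⦌) τ)
  exact congrArg ULift.down h

lemma hom_ext_toEx {f g : nerve P ⟶ SSet.ex.obj Y}
    (h : ∀ (m : ℕ) (τ : ULift.{u} (Fin (m + 1)) →o P), ev f τ = ev g τ) : f = g := by
  ext m σ
  induction m using Opposite.rec with | _ m => ?_
  induction m using SimplexCategory.rec with | _ m => ?_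
  apply ULift.ext
  have := h m (toOH (m := ⦋m⦌) σ)
  unfold ev at this
  rwa [ofOH_toOH] at this

lemma ev_toEx (g : nerve (NonemptyFiniteChains P) ⟶ Y) {m : ℕ}
    (τ : ULift.{u} (Fin (m + 1)) →o P) : ev (toEx g) τ = nv (chm τ) ≫ g := rfl

/-- simplices are determined by their monotone map -/
lemma toOH_inj {m : SimplexCategory} {σ σ' : (nerve P).obj (op m)} (h : toOH σ = toOH σ') :
    σ = σ' := by
  rw [← ofOH_toOH σ, h, ofOH_toOH]

lemma ev_eq_of_emb (f : nerve P ⟶ SSet.ex.obj Y) {k m r : ℕ}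
    (τ : ULift.{u} (Fin (m + 1)) →o P)
    (c : (nerve (NonemptyFiniteChains (ULift.{u} (Fin (m + 1))))).obj (op ⦋k⦌))
    (ρ : ULift.{u} (Fin (r + 1)) →o P) (hρ : Emb ρ)
    (e : (nerve (NonemptyFiniteChains (ULift.{u} (Fin (r + 1))))).obj (op ⦋k⦌))
    (he : (nv (chm ρ)).app _ e = (nv (chm τ)).app _ c) :
    (ev f τ).app _ c = (ev f ρ).app _ e := by
  have hmap : (chm ρ).comp (toOH e) = (chm τ).comp (toOH c) := by
    rw [← toOH_nv, ← toOH_nv, he]
  -- enumerate the top chain of `c`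
  obtain ⟨s, ι, hι, hιr⟩ := exists_enum (toOH c (ULift.up (Fin.last k)))
  obtain ⟨c', hc'⟩ := exists_lift_map hι (toOH c) (by
    intro w x hx
    have hle : toOH c w ≤ toOH c (ULift.up (Fin.last k)) := (toOH c).monotone (Fin.le_last w.down)
    exact (hιr x).1 (hle hx))
  -- the composite `τ ∘ ι` factors through `ρ`
  have hfac : ∀ i, ∃ j, ρ j = τ (ι i) := by
    intro i
    have h1 : ι i ∈ (toOH c (ULift.up (Fin.last k))).finset := (hιr _).2 ⟨i, rfl⟩
    have h2 : τ (ι i) ∈ (((chm τ).comp (toOH c)) (ULift.up (Fin.last k))).finset :=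
      mem_map.2 ⟨_, h1, rfl⟩
    rw [← hmap] at h2
    obtain ⟨j, -, hj⟩ := mem_map.1 h2
    exact ⟨j, hj⟩
  choose π hπ using hfac
  let π' : ULift.{u} (Fin (s + 1)) →o ULift.{u} (Fin (r + 1)) :=
    ⟨π, fun i j h ↦ hρ _ _ (by rw [hπ, hπ]; exact τ.monotone (ι.monotone h))⟩
  have hπ' : ρ.comp π' = τ.comp ι := by
    ext1
    funext i
    exact hπ i
  have h1 : c = (nv (chm ι)).app _ (ofOH (m := ⦋k⦌) c') := by
    apply toOH_inj
    rw [toOH_nv, toOH_ofOH]
    exact hc'.symm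
  have h2 : e = (nv (chm π')).app _ (ofOH (m := ⦋k⦌) c') := by
    apply toOH_inj
    rw [toOH_nv, toOH_ofOH]
    ext1
    funext w
    apply hρ.ch.inj
    have h3 := DFunLike.congr_fun hmap w
    have h4 : ((chm ρ).comp (chm π')) (c' w) = (chm τ).comp (chm ι) (c' w) := by
      rw [← chm_comp, ← chm_comp, hπ']
    have h5 := DFunLike.congr_fun hc' w
    simp only [OrderHom.comp_coe, Function.comp_apply] at h3 h4 h5 ⊢
    rw [h3, h4, ← h5]
  have h3 := ev_comp f τ ι
  have h4 := ev_comp f ρ π'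
  rw [hπ'] at h4
  rw [h1, h2]
  change ((nv (chm ι) ≫ ev f τ).app _) _ = ((nv (chm π') ≫ ev f ρ).app _) _
  rw [← h3, ← h4]

lemma ev_eq (f : nerve P ⟶ SSet.ex.obj Y) {k m m' : ℕ}
    (τ : ULift.{u} (Fin (m + 1)) →o P)
    (c : (nerve (NonemptyFiniteChains (ULift.{u} (Fin (m + 1))))).obj (op ⦋k⦌))
    (τ' : ULift.{u} (Fin (m' + 1)) →o P)
    (c' : (nerve (NonemptyFiniteChains (ULift.{u} (Fin (m' + 1))))).obj (op ⦋k⦌))
    (h : (nv (chm τ)).app _ c = (nv (chm τ')).app _ c') :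
    (ev f τ).app _ c = (ev f τ').app _ c' := by
  obtain ⟨r, ρ, hρ, hρr⟩ := exists_enum (toOH ((nv (chm τ)).app _ c) (ULift.up (Fin.last k)))
  obtain ⟨e, he⟩ := exists_lift_map hρ (toOH ((nv (chm τ)).app _ c)) (by
    intro w x hx
    have hle : toOH ((nv (chm τ)).app _ c) w ≤ toOH ((nv (chm τ)).app _ c)
      (ULift.up (Fin.last k)) := (toOH _).monotone (Fin.le_last w.down)
    exact (hρr x).1 (hle hx))
  have he' : (nv (chm ρ)).app _ (ofOH (m := ⦋k⦌) e) = (nv (chm τ)).app _ c := by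
    apply toOH_inj
    rw [toOH_nv, toOH_ofOH, he]
  rw [ev_eq_of_emb f τ c ρ hρ _ he', ev_eq_of_emb f τ' c' ρ hρ _ (he'.trans h)]

/-- every simplex of the nerve of chains comes from a simplex. -/
lemma exists_rep {k : ℕ} (c : (nerve (NonemptyFiniteChains P)).obj (op ⦋k⦌)) :
    ∃ (r : ℕ) (ρ : ULift.{u} (Fin (r + 1)) →o P)
      (e : (nerve (NonemptyFiniteChains (ULift.{u} (Fin (r + 1))))).obj (op ⦋k⦌)),
      (nv (chm ρ)).app _ e = c := by
  obtain ⟨r, ρ, hρ, hρr⟩ := exists_enum (toOH c (ULift.up (Fin.last k)))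
  obtain ⟨e, he⟩ := exists_lift_map hρ (toOH c) (by
    intro w x hx
    have hle : toOH c w ≤ toOH c (ULift.up (Fin.last k)) := (toOH _).monotone (Fin.le_last w.down)
    exact (hρr x).1 (hle hx))
  refine ⟨r, ρ, ofOH (m := ⦋k⦌) e, ?_⟩
  apply toOH_inj
  rw [toOH_nv, toOH_ofOH, he]

lemma toEx_injective : Function.Injective
    (toEx : (nerve (NonemptyFiniteChains P) ⟶ Y) → (nerve P ⟶ SSet.ex.obj Y)) := by
  intro g g' h
  ext k c
  induction k using Opposite.rec with | _ k => ?_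
  induction k using SimplexCategory.rec with | _ k => ?_
  obtain ⟨r, ρ, e, rfl⟩ := exists_rep c
  have h1 := ev_toEx g ρ
  have h2 := ev_toEx g' ρ
  rw [h, h2] at h1
  have h3 := congrArg (fun φ : nerve (NonemptyFiniteChains (ULift.{u} (Fin (r + 1)))) ⟶ Y ↦
    φ.app (op ⦋k⦌) e) h1
  exact h3.symm

lemma toEx_surjective : Function.Surjective
    (toEx : (nerve (NonemptyFiniteChains P) ⟶ Y) → (nerve P ⟶ SSet.ex.obj Y)) := by
  intro f
  have hrep := fun (k : ℕ) ↦ fun (c : (nerve (NonemptyFiniteChains P)).obj (op ⦋k⦌)) ↦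
    exists_rep c
  choose r ρ e he using hrep
  let G : ∀ k : ℕ, (nerve (NonemptyFiniteChains P)).obj (op ⦋k⦌) → Y.obj (op ⦋k⦌) :=
    fun k c ↦ (ev f (ρ k c)).app _ (e k c)
  have hG : ∀ (k m : ℕ) (τ : ULift.{u} (Fin (m + 1)) →o P)
      (c : (nerve (NonemptyFiniteChains (ULift.{u} (Fin (m + 1))))).obj (op ⦋k⦌)),
      G k ((nv (chm τ)).app _ c) = (ev f τ).app _ c := by
    intro k m τ c
    exact ev_eq f _ _ _ _ (he _ _)
  let g : nerve (NonemptyFiniteChains P) ⟶ Y :=
    { app k := ↾fun c ↦ G k.unop.len c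
      naturality k k' θ := by
        ext c
        change G k'.unop.len ((nerve (NonemptyFiniteChains P)).map θ c) =
          Y.map θ (G k.unop.len c)
        induction k using Opposite.rec with | _ k => ?_
        induction k' using Opposite.rec with | _ k' => ?_
        induction k using SimplexCategory.rec with | _ k => ?_
        induction k' using SimplexCategory.rec with | _ k' => ?_
        change G k' ((nerve (NonemptyFiniteChains P)).map θ c) = Y.map θ (G k c)
        have h1 : (nerve (NonemptyFiniteChains P)).map θ c =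
            (nv (chm (ρ k c))).app _
              ((nerve (NonemptyFiniteChains (ULift.{u} (Fin (r k c + 1))))).map θ (e k c)) := by
          conv_lhs => rw [← he k c]
          rfl
        rw [h1, hG]
        exact (ev f (ρ k c)).naturality_apply θ (e k c) }
  refine ⟨g, ?_⟩
  apply hom_ext_toEx
  intro m τ
  rw [ev_toEx]
  ext k c
  induction k using Opposite.rec with | _ k => ?_
  induction k using SimplexCategory.rec with | _ k => ?_
  exact hG k m τ c

lemma toEx_nat {Q : Type u} [PartialOrder Q] (h : P →o Q)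
    (g : nerve (NonemptyFiniteChains Q) ⟶ Y) :
    toEx (nv (chm h) ≫ g) = nv h ≫ toEx g := by
  apply hom_ext_toEx
  intro m τ
  rw [ev_toEx]
  change _ = nv (chm (h.comp τ)) ≫ g
  rw [chm_comp, nv_comp, Category.assoc]

end transfer

end Pool.Agent.H66
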