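import Mathlib
import Pool.Agent.H66.ExTransfer

open CategoryTheory PartialOrder SSet Opposite

namespace Pool.Agent.H66

universe u

/-- iterated poset of nonempty finite chains -/
noncomputable def T (P : Type u) [PartialOrder P] : ℕ → PartOrd.{u}
  | 0 => .of P
  | n + 1 => .of (NonemptyFiniteChains (T P n))

variable {P Q R : Type u} [PartialOrder P] [PartialOrder Q] [PartialOrder R]

/-- iterated map on chains -/
noncomputable def Tm (f : P →o Q) : ∀ n : ℕ, T P n →o T Q n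
  | 0 => f
  | n + 1 => chm (Tm f n)

lemma Tm_comp (f : P →o Q) (g : Q →o R) (n : ℕ) :
    Tm (g.comp f) n = (Tm g n).comp (Tm f n) := by
  induction n with
  | zero => rfl
  | succ n ih =>
    change chm (Tm (g.comp f) n) = (chm (Tm g n)).comp (chm (Tm f n))
    rw [ih, chm_comp]

/-- iterating `toEx` -/
noncomputable def transfer : ∀ (n : ℕ) {Y : SSet.{u}} (_ : nerve (T P n) ⟶ Y),
    nerve P ⟶ (SSet.ex.obj)^[n] Y
  | 0, _, g => g
  | n + 1, _, g => transfer n (toEx g)

lemma transfer_bij (n : ℕ) : ∀ (Y : SSet.{u}), Function.Bijective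
    (transfer n : (nerve (T P n) ⟶ Y) → (nerve P ⟶ (SSet.ex.obj)^[n] Y)) := by
  induction n with
  | zero => exact fun Y ↦ Function.bijective_id
  | succ n ih =>
    intro Y
    exact (ih (SSet.ex.obj Y)).comp
      ⟨toEx_injective (P := T P n) (Y := Y), toEx_surjective (P := T P n) (Y := Y)⟩

lemma transfer_nat (h : P →o Q) (n : ℕ) : ∀ {Y : SSet.{u}} (g : nerve (T Q n) ⟶ Y),
    transfer n (nv (Tm h n) ≫ g) = nv h ≫ transfer n g := by
  induction n with
  | zero => intro Y g; rfl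
  | succ n ih =>
    intro Y g
    have h1 : toEx (nv (chm (Tm h n)) ≫ (g : nerve (NonemptyFiniteChains (T Q n)) ⟶ Y)) =
      nv (Tm h n) ≫ toEx (g : nerve (NonemptyFiniteChains (T Q n)) ⟶ Y) := toEx_nat _ _
    have h2 := ih (toEx (g : nerve (NonemptyFiniteChains (T Q n)) ⟶ Y))
    rw [← h1] at h2
    exact h2

open Simplicial

lemma nv_bij : Function.Bijective (nv : (P →o Q) → (nerve P ⟶ nerve Q)) := by
  constructor
  · intro f g h
    ext1
    funext x
    have h1 := congrArg (fun φ : nerve P ⟶ nerve Q ↦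
      toOH (φ.app (op ⦋0⦌) (ofOH (m := ⦋0⦌) ⟨fun _ ↦ x, fun _ _ _ ↦ le_rfl⟩)) (ULift.up 0)) h
    exact h1
  · intro φ
    obtain ⟨F, hF⟩ := (nerveFunctor.{u, u}).map_surjective (X := Cat.of P) (Y := Cat.of Q) φ
    let G : P ⥤ Q := F.toFunctor
    refine ⟨⟨G.obj, fun x y h ↦ leOfHom (G.map (homOfLE h))⟩, ?_⟩
    rw [← hF]
    ext k c
    rfl

/-- maps out of the standard simplex into `ex^[n]` of the nerve of a poset -/
noncomputable def D {Z : Type u} [PartialOrder Z] (n m : ℕ)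
    (h : T (ULift.{u} (Fin (m + 1))) n →o Z) :
    (Δ[m] : SSet.{u}) ⟶ (SSet.ex.obj)^[n] (nerve Z) :=
  (stdSimplex.isoNerve.{u} m).hom ≫ transfer n (nv h)

lemma D_bij {Z : Type u} [PartialOrder Z] (n m : ℕ) :
    Function.Bijective (D (Z := Z) n m) := by
  have h1 : Function.Bijective (fun g : nerve (ULift.{u} (Fin (m + 1))) ⟶
      (SSet.ex.obj)^[n] (nerve Z) ↦ (stdSimplex.isoNerve.{u} m).hom ≫ g) := by
    constructor
    · intro a b h
      exact (cancel_epi _).1 h
    · intro a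
      exact ⟨(stdSimplex.isoNerve.{u} m).inv ≫ a, by simp⟩
  exact h1.comp ((transfer_bij n (nerve Z)).comp (nv_bij (P := T (ULift.{u} (Fin (m + 1))) n)))

/-- the face map as a monotone map -/
abbrev dl {m : ℕ} (j : Fin (m + 2)) : ULift.{u} (Fin (m + 1)) →o ULift.{u} (Fin (m + 2)) :=
  upm (SimplexCategory.δ j)

lemma D_nat {Z : Type u} [PartialOrder Z] (n m : ℕ) (j : Fin (m + 2))
    (h : T (ULift.{u} (Fin (m + 2))) n →o Z) :
    D n m (h.comp (Tm (dl j) n)) = stdSimplex.δ j ≫ D n (m + 1) h := by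
  unfold D
  have h0 : (stdSimplex.isoNerve.{u} m).hom ≫ nv (dl j) =
      stdSimplex.δ j ≫ (stdSimplex.isoNerve.{u} (m + 1)).hom := rfl
  have h1 : nv (h.comp (Tm (dl j) n)) = nv (Tm (dl j) n) ≫ nv h := rfl
  rw [h1, transfer_nat, ← Category.assoc, h0, Category.assoc]

end Pool.Agent.H66
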