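import Mathlib
import Pool.Agent.H66.ExIter

open CategoryTheory PartialOrder SSet Opposite

namespace Pool.Agent.H66

universe u

/-- the order relation of the infinite fence `0 < 1 > 2 < 3 > ...` on `ℕ` -/
def rel (x y : ℕ) : Prop := x = y ∨ (x % 2 = 0 ∧ (y = x + 1 ∨ x = y + 1))

lemma rel_max {x y x' y' : ℕ} (h : rel x y) (h' : rel x' y') : rel (max x x') (max y y') := by
  unfold rel at *
  omega

lemma rel_min {x y x' y' : ℕ} (h : rel x y) (h' : rel x' y') : rel (min x x') (min y y') := by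
  unfold rel at *
  omega

lemma rel_sub {x y K : ℕ} (h : rel x y) (hx : x ≤ 2 * K) (hy : y ≤ 2 * K) :
    rel (2 * K - x) (2 * K - y) := by
  unfold rel at *
  omega

section

variable {B : Type u} [PartialOrder B]

/-- minimum plus maximum of a function over a chain -/
noncomputable def mm (k : B → ℕ) (v : NonemptyFiniteChains B) : ℕ :=
  v.finset.inf' v.nonempty k + v.finset.sup' v.nonempty k

lemma sup_le_inf {k : B → ℕ} (hk : ∀ b b', b ≤ b' → rel (k b) (k b'))
    (v : NonemptyFiniteChains B) :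
    v.finset.sup' v.nonempty k ≤ v.finset.inf' v.nonempty k + 1 := by
  obtain ⟨x, hx, hx'⟩ := Finset.exists_mem_eq_sup' v.nonempty k
  obtain ⟨y, hy, hy'⟩ := Finset.exists_mem_eq_inf' v.nonempty k
  rw [hx', hy']
  rcases v.comparable ⟨x, hx⟩ ⟨y, hy⟩ with h | h
  · have := hk _ _ h
    simp only [rel] at this
    omega
  · have := hk _ _ h
    simp only [rel] at this
    omega

lemma inf_le_sup (k : B → ℕ) (v : NonemptyFiniteChains B) :
    v.finset.inf' v.nonempty k ≤ v.finset.sup' v.nonempty k := by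
  obtain ⟨x, hx⟩ := v.nonempty
  exact (Finset.inf'_le k hx).trans (Finset.le_sup' k hx)

lemma mm_rel {k : B → ℕ} (hk : ∀ b b', b ≤ b' → rel (k b) (k b'))
    (v v' : NonemptyFiniteChains B) (h : v ≤ v') : rel (mm k v) (mm k v') := by
  have h1 := sup_le_inf hk v'
  have h2 : v'.finset.inf' v'.nonempty k ≤ v.finset.inf' v.nonempty k :=
    Finset.inf'_mono k h v.nonempty
  have h3 : v.finset.sup' v.nonempty k ≤ v'.finset.sup' v'.nonempty k :=
    Finset.sup'_mono k h v.nonempty
  have h4 := inf_le_sup k v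
  unfold rel mm
  omega

/-- A depth function and a retraction of the part of depth `< K` onto `A`. -/
structure Retr (A : Set B) (K : ℕ) where
  /-- depth -/
  k : B → ℕ
  k_le : ∀ b, k b ≤ K
  k_rel : ∀ b b', b ≤ b' → rel (k b) (k b')
  k_zero : ∀ b ∈ A, k b = 0
  /-- retraction -/
  R : B → B
  R_mem : ∀ b, k b < K → R b ∈ A
  R_mono : ∀ b b', b ≤ b' → k b < K → k b' < K → R b ≤ R b'
  R_id : ∀ b ∈ A, R b = b

/-- chains with all elements in `A` -/
def chSet (A : Set B) : Set (NonemptyFiniteChains B) := {v | ∀ x ∈ v.finset, x ∈ A}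

open scoped Classical in
/-- the retraction one level up -/
noncomputable def Retr.step {A : Set B} {K : ℕ} (r : Retr A K) (hK : 1 ≤ K) :
    Retr (chSet A) (2 * K) where
  k := mm r.k
  k_le v := by
    have h1 : v.finset.inf' v.nonempty r.k ≤ v.finset.sup' v.nonempty r.k := inf_le_sup _ _
    have h2 : v.finset.sup' v.nonempty r.k ≤ K := Finset.sup'_le _ _ fun b _ ↦ r.k_le b
    unfold mm
    omega
  k_rel := mm_rel r.k_rel
  k_zero v hv := by
    have h2 : v.finset.sup' v.nonempty r.k ≤ 0 :=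
      Finset.sup'_le _ _ fun b hb ↦ (r.k_zero b (hv b hb)).le
    have h1 : v.finset.inf' v.nonempty r.k ≤ v.finset.sup' v.nonempty r.k := inf_le_sup _ _
    unfold mm
    omega
  R v := if h : ∃ x ∈ v.finset, r.k x < K then
    { finset := (v.finset.filter (fun x ↦ r.k x < K)).image r.R
      nonempty := by
        obtain ⟨x, hx, hx'⟩ := h
        exact ⟨r.R x, Finset.mem_image_of_mem _ (Finset.mem_filter.2 ⟨hx, hx'⟩)⟩
      comparable := by
        rintro ⟨a, ha⟩ ⟨b, hb⟩
        obtain ⟨x, hx, rfl⟩ := Finset.mem_image.1 ha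
        obtain ⟨y, hy, rfl⟩ := Finset.mem_image.1 hb
        rw [Finset.mem_filter] at hx hy
        rcases v.comparable ⟨x, hx.1⟩ ⟨y, hy.1⟩ with h | h
        · exact Or.inl (r.R_mono _ _ h hx.2 hy.2)
        · exact Or.inr (r.R_mono _ _ h hy.2 hx.2) }
    else v
  R_mem v hv := by
    have h1 := inf_le_sup r.k v
    have h : ∃ x ∈ v.finset, r.k x < K := by
      obtain ⟨y, hy, hy'⟩ := Finset.exists_mem_eq_inf' v.nonempty r.k
      refine ⟨y, hy, ?_⟩
      unfold mm at hv
      omega
    rw [dif_pos h]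
    intro x hx
    obtain ⟨y, hy, rfl⟩ := Finset.mem_image.1 hx
    exact r.R_mem _ (Finset.mem_filter.1 hy).2
  R_mono v v' hvv hv hv' := by
    have key : ∀ w : NonemptyFiniteChains B, mm r.k w < 2 * K → ∃ x ∈ w.finset, r.k x < K := by
      intro w hw
      have h1 := inf_le_sup r.k w
      obtain ⟨y, hy, hy'⟩ := Finset.exists_mem_eq_inf' w.nonempty r.k
      refine ⟨y, hy, ?_⟩
      unfold mm at hw
      omega
    rw [dif_pos (key v hv), dif_pos (key v' hv')]
    intro x hx
    obtain ⟨y, hy, rfl⟩ := Finset.mem_image.1 hx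
    rw [Finset.mem_filter] at hy
    exact Finset.mem_image_of_mem _ (Finset.mem_filter.2 ⟨hvv hy.1, hy.2⟩)
  R_id v hv := by
    have h : ∃ x ∈ v.finset, r.k x < K := by
      obtain ⟨y, hy⟩ := v.nonempty
      refine ⟨y, hy, ?_⟩
      rw [r.k_zero y (hv y hy)]
      omega
    rw [dif_pos h]
    apply ch_ext
    intro x
    constructor
    · intro hx
      obtain ⟨y, hy, rfl⟩ := Finset.mem_image.1 hx
      rw [Finset.mem_filter] at hy
      rw [r.R_id y (hv y hy.1)]
      exact hy.1
    · intro hx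
      refine Finset.mem_image.2 ⟨x, Finset.mem_filter.2 ⟨hx, ?_⟩, r.R_id x (hv x hx)⟩
      rw [r.k_zero x (hv x hx)]
      omega

open scoped Classical in
/-- the base case -/
noncomputable def Retr.base (A : Set B) (hA : IsLowerSet A) : Retr A 1 where
  k b := if b ∈ A then 0 else 1
  k_le b := by split_ifs <;> omega
  k_rel b b' h := by
    by_cases h1 : b' ∈ A
    · have h2 : b ∈ A := hA h h1
      simp [h1, h2, rel]
    · by_cases h2 : b ∈ A <;> simp [h1, h2, rel]
  k_zero b hb := by simp [hb]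
  R b := b
  R_mem b hb := by
    by_contra h
    simp [h] at hb
  R_mono b b' h _ _ := h
  R_id b _ := rfl

/-- The extension formula. -/
noncomputable def Retr.ext {A : Set B} {K : ℕ} (r : Retr A K) (F : B → ℕ) (b : B) : ℕ :=
  if r.k b < K then max (r.k b) (min (2 * K - r.k b) (F (r.R b))) else K

lemma Retr.ext_le {A : Set B} {K : ℕ} (r : Retr A K) (F : B → ℕ) (b : B) :
    r.ext F b ≤ 2 * K := by
  have := r.k_le b
  unfold Retr.ext
  split_ifs <;> omega

lemma Retr.ext_rel {A : Set B} {K : ℕ} (r : Retr A K) (F : B → ℕ)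
    (hF : ∀ b ∈ A, ∀ b' ∈ A, b ≤ b' → rel (F b) (F b')) (b b' : B) (h : b ≤ b') :
    rel (r.ext F b) (r.ext F b') := by
  have h1 := r.k_le b
  have h2 := r.k_le b'
  have h3 := r.k_rel _ _ h
  unfold Retr.ext
  by_cases hb : r.k b < K
  · by_cases hb' : r.k b' < K
    · rw [if_pos hb, if_pos hb']
      exact rel_max h3 (rel_min (rel_sub h3 (by omega) (by omega))
        (hF _ (r.R_mem _ hb) _ (r.R_mem _ hb') (r.R_mono _ _ h hb hb')))
    · rw [if_pos hb, if_neg hb']
      unfold rel at *
      omega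
  · by_cases hb' : r.k b' < K
    · rw [if_neg hb, if_pos hb']
      unfold rel at *
      omega
    · rw [if_neg hb, if_neg hb']
      exact Or.inl rfl

lemma Retr.ext_eq {A : Set B} {K : ℕ} (r : Retr A K) (hK : 1 ≤ K) (F : B → ℕ)
    (b : B) (hb : b ∈ A) (hF : F b ≤ 2 * K) : r.ext F b = F b := by
  unfold Retr.ext
  rw [r.k_zero b hb, r.R_id b hb, if_pos (by omega)]
  omega

end

end Pool.Agent.H66
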