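import Mathlib
import Pool.Agent.H66.ExFence

open CategoryTheory PartialOrder SSet Opposite

namespace Pool.Agent.H66

universe u

section

variable {P Q R S : Type u} [PartialOrder P] [PartialOrder Q] [PartialOrder R] [PartialOrder S]

lemma exists_top (c : NonemptyFiniteChains P) : ∃ x ∈ c.finset, ∀ y ∈ c.finset, y ≤ x := by
  obtain ⟨x, hx⟩ := c.finset.exists_maximal c.nonempty
  refine ⟨x, hx.1, fun y hy ↦ ?_⟩
  rcases c.comparable ⟨x, hx.1⟩ ⟨y, hy⟩ with h | h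
  · exact hx.2 hy h
  · exact h

/-- the range of a map on chains is a lower set -/
lemma chm_lower (f : P →o Q) (b : NonemptyFiniteChains Q) (x : NonemptyFiniteChains P)
    (h : b ≤ chm f x) : ∃ y, chm f y = b := by
  classical
  have hb : ∀ z ∈ b.finset, ∃ w ∈ x.finset, f w = z := fun z hz ↦ mem_map.1 (h hz)
  refine ⟨
    { finset := x.finset.filter (fun w ↦ f w ∈ b.finset)
      nonempty := by
        obtain ⟨z, hz⟩ := b.nonempty
        obtain ⟨w, hw, rfl⟩ := hb z hz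
        exact ⟨w, Finset.mem_filter.2 ⟨hw, hz⟩⟩
      comparable := fun ⟨a, ha⟩ ⟨a', ha'⟩ ↦
        x.comparable ⟨a, (Finset.mem_filter.1 ha).1⟩ ⟨a', (Finset.mem_filter.1 ha').1⟩ }, ?_⟩
  apply ch_ext
  intro z
  rw [mem_map]
  constructor
  · rintro ⟨w, hw, rfl⟩
    exact (Finset.mem_filter.1 hw).2
  · intro hz
    obtain ⟨w, hw, rfl⟩ := hb z hz
    exact ⟨w, Finset.mem_filter.2 ⟨hw, hz⟩, rfl⟩

lemma Emb.Tm {f : P →o Q} (hf : Emb f) : ∀ n, Emb (Tm f n)
  | 0 => hf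
  | n + 1 => (Emb.Tm hf n).ch

/-- embedded squares that are pullbacks -/
structure PB (f' : P →o Q) (f : Q →o S) (g' : P →o R) (g : R →o S) : Prop where
  comm : f.comp f' = g.comp g'
  pb : ∀ x y, f x = g y → ∃ z, f' z = x ∧ g' z = y
  ef : Emb f
  ef' : Emb f'
  eg : Emb g
  eg' : Emb g'

lemma PB.ch {f' : P →o Q} {f : Q →o S} {g' : P →o R} {g : R →o S} (h : PB f' f g' g) :
    PB (chm f') (chm f) (chm g') (chm g) where
  comm := by rw [← chm_comp, ← chm_comp, h.comm]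
  pb x y hxy := by
    have h1 : ∀ a ∈ x.finset, ∃ z, f' z = a := by
      intro a ha
      have h2 : f a ∈ (chm f x).finset := mem_map.2 ⟨a, ha, rfl⟩
      rw [hxy] at h2
      obtain ⟨b, hb, hab⟩ := mem_map.1 h2
      obtain ⟨z, hz, -⟩ := h.pb a b hab.symm
      exact ⟨z, hz⟩
    obtain ⟨e, he⟩ := exists_lift_chain h.ef' x h1
    refine ⟨e, he, ?_⟩
    apply h.eg.ch.inj
    change (chm g).comp (chm g') e = chm g y
    rw [← chm_comp, ← h.comm, chm_comp, ← hxy]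
    change chm f (chm f' e) = _
    rw [← he]
  ef := h.ef.ch
  ef' := h.ef'.ch
  eg := h.eg.ch
  eg' := h.eg'.ch

lemma PB.Tm {f' : P →o Q} {f : Q →o S} {g' : P →o R} {g : R →o S} (h : PB f' f g' g) :
    ∀ n, PB (Tm f' n) (Tm f n) (Tm g' n) (Tm g n)
  | 0 => h
  | n + 1 => (PB.Tm h n).ch

end

/-- the horn part one level up from chains -/
def An {P : Type u} [PartialOrder P] (A : Set (NonemptyFiniteChains P)) : ∀ n, Set (T P (n + 1))
  | 0 => A
  | n + 1 => chSet (An A n)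

/-- the retractions -/
noncomputable def Rn {P : Type u} [PartialOrder P] {A : Set (NonemptyFiniteChains P)}
    (hA : IsLowerSet A) : ∀ n, Retr (An A n) (2 ^ n)
  | 0 => Retr.base A hA
  | n + 1 => by
      rw [pow_succ']
      exact (Rn hA n).step Nat.one_le_two_pow

/-- the horn as a set of chains -/
def hornSet {m : ℕ} (i : Fin (m + 2)) : Set (NonemptyFiniteChains (ULift.{u} (Fin (m + 2)))) :=
  {c | ∃ j, j ≠ i ∧ ULift.up j ∉ c.finset}

lemma hornSet_lower {m : ℕ} (i : Fin (m + 2)) : IsLowerSet (hornSet.{u} i) := by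
  rintro c d h ⟨j, hj, hjc⟩
  exact ⟨j, hj, fun hd ↦ hjc (h hd)⟩

lemma dl_emb {m : ℕ} (j : Fin (m + 2)) : Emb (dl.{u} j) := by
  intro x y h
  have h1 : j.succAbove x.down ≤ j.succAbove y.down := h
  exact (Fin.succAbove_le_succAbove_iff).1 h1

lemma dl_range {m : ℕ} (j : Fin (m + 2)) (x : ULift.{u} (Fin (m + 2))) (hx : x ≠ ULift.up j) :
    ∃ y, dl.{u} j y = x := by
  have h1 : x.down ≠ j := fun h ↦ hx (ULift.ext _ _ h)
  obtain ⟨y, hy⟩ := Fin.exists_succAbove_eq h1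
  exact ⟨ULift.up y, ULift.ext _ _ hy⟩

lemma dl_ne {m : ℕ} (j : Fin (m + 2)) (y : ULift.{u} (Fin (m + 1))) : dl.{u} j y ≠ ULift.up j := by
  intro h
  have h1 : j.succAbove y.down = j := congrArg ULift.down h
  exact Fin.succAbove_ne _ _ h1

lemma An_range {m : ℕ} (i : Fin (m + 2)) : ∀ (n : ℕ) (b : T (ULift.{u} (Fin (m + 2))) (n + 1)),
    b ∈ An (hornSet.{u} i) n → ∃ j, j ≠ i ∧ ∃ x, Tm (dl.{u} j) (n + 1) x = b
  | 0, b, hb => by
    obtain ⟨j, hj, hjb⟩ := hb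
    refine ⟨j, hj, exists_lift_chain (dl_emb j) b fun x hx ↦ dl_range j x ?_⟩
    rintro rfl
    exact hjb hx
  | n + 1, b, hb => by
    obtain ⟨x, hx, hx'⟩ := exists_top (P := T (ULift.{u} (Fin (m + 2))) (n + 1)) b
    obtain ⟨j, hj, y, hy⟩ := An_range i n x (hb x hx)
    refine ⟨j, hj, exists_lift_chain ((dl_emb.{u} j).Tm (n + 1)) b fun z hz ↦ ?_⟩
    refine chm_lower (Tm (dl.{u} j) n) z y ?_
    have h1 : z ≤ x := hx' z hz
    rw [← hy] at h1
    exact h1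

lemma mem_An {m : ℕ} (i j : Fin (m + 2)) (hj : j ≠ i) : ∀ (n : ℕ)
    (x : T (ULift.{u} (Fin (m + 1))) (n + 1)), Tm (dl.{u} j) (n + 1) x ∈ An (hornSet.{u} i) n
  | 0, x => by
    refine ⟨j, hj, fun h ↦ ?_⟩
    obtain ⟨y, -, hy⟩ := mem_map.1 h
    exact dl_ne j y hy
  | n + 1, x => by
    intro z hz
    obtain ⟨y, -, rfl⟩ := mem_map.1 hz
    exact mem_An i j hj n y

end Pool.Agent.H66
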