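import Mathlib
import Pool.Agent.H66.ExHorn

open CategoryTheory PartialOrder SSet Opposite

namespace Pool.Agent.H66

universe u

/-- The fence poset `0 < 1 > 2 < 3 > ...` on the numbers `≤ L`. -/
structure Fence (L : ℕ) : Type u where
  /-- the position -/
  val : ℕ
  le : val ≤ L

instance (L : ℕ) : PartialOrder (Fence.{u} L) where
  le a b := rel a.val b.val
  le_refl a := Or.inl rfl
  le_trans a b c h h' := by
    unfold rel at *
    omega
  le_antisymm a b h h' := by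
    have : a.val = b.val := by
      change rel a.val b.val at h
      change rel b.val a.val at h'
      unfold rel at *
      omega
    cases a
    cases b
    simp_all

lemma Fence.le_iff {L : ℕ} (a b : Fence.{u} L) : a ≤ b ↔ rel a.val b.val := Iff.rfl

lemma Fence.ext' {L : ℕ} {a b : Fence.{u} L} (h : a.val = b.val) : a = b := by
  cases a
  cases b
  simp_all

open Simplicial

lemma dl_comm {m : ℕ} (j k : Fin (m + 3)) (hjk : j < k) :
    (dl.{u} j).comp (dl.{u} (k.pred (Fin.ne_zero_of_lt hjk))) =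
      (dl.{u} k).comp (dl.{u} (j.castPred (Fin.ne_last_of_lt hjk))) := by
  obtain ⟨j, rfl⟩ := j.eq_castSucc_of_ne_last (Fin.ne_last_of_lt hjk)
  obtain ⟨k, rfl⟩ := k.eq_succ_of_ne_zero (Fin.ne_zero_of_lt hjk)
  have h1 : j ≤ k := by
    have h := Fin.lt_def.1 hjk
    simp only [Fin.val_castSucc, Fin.val_succ] at h
    rw [Fin.le_def]
    omega
  simp only [Fin.pred_succ, Fin.castPred_castSucc]
  exact (congrArg (fun θ : ⦋m⦌ ⟶ ⦋m + 2⦌ ↦ upm.{u} θ) (SimplexCategory.δ_comp_δ h1)).symm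

lemma dl_PB {m : ℕ} (j k : Fin (m + 3)) (hjk : j < k) :
    PB (dl.{u} (k.pred (Fin.ne_zero_of_lt hjk))) (dl.{u} j)
      (dl.{u} (j.castPred (Fin.ne_last_of_lt hjk))) (dl.{u} k) where
  comm := dl_comm j k hjk
  pb x y hxy := by
    have h1 : j.succAbove x.down = k.succAbove y.down := congrArg ULift.down hxy
    have h2 : x.down ≠ k.pred (Fin.ne_zero_of_lt hjk) := by
      intro h
      have h3 : j.succAbove x.down = k := by
        rw [h]
        exact Fin.succAbove_pred_of_lt _ _ hjk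
      rw [h3] at h1
      exact Fin.succAbove_ne _ _ h1.symm
    obtain ⟨z, hz⟩ := Fin.exists_succAbove_eq h2
    refine ⟨ULift.up z, ULift.ext _ _ hz, ?_⟩
    apply (dl_emb k).inj
    rw [← hxy, ← (ULift.ext _ _ hz : dl.{u} (k.pred (Fin.ne_zero_of_lt hjk)) (ULift.up z) = x)]
    exact (DFunLike.congr_fun (dl_comm.{u} j k hjk) (ULift.up z)).symm
  ef := dl_emb _
  ef' := dl_emb _
  eg := dl_emb _
  eg' := dl_emb _

/-- The Kan part. -/
theorem kan (n : ℕ) :
    SSet.KanComplex ((SSet.ex.{u}.obj)^[n + 1] (nerve (Fence.{u} (2 * 2 ^ n)))) := by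
  classical
  rw [SSet.KanComplex.iff]
  intro m i f hf
  have hD := fun (j : Fin (m + 2)) (hj : j ≠ i) ↦ (D_bij (Z := Fence.{u} (2 * 2 ^ n)) (n + 1) m).2
    (f j hj)
  choose h hh using hD
  -- well-definedness
  have wd1 : ∀ (j k : Fin (m + 2)) (hj : j ≠ i) (hk : k ≠ i), j < k → ∀ x y,
      Tm (dl.{u} j) (n + 1) x = Tm (dl.{u} k) (n + 1) y → h j hj x = h k hk y := by
    intro j k hj hk hjk x y hxy
    cases m with
    | zero => exfalso; omega
    | succ m =>
      have h1 := hf j k hj hk hjk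
      rw [← hh j hj, ← hh k hk, ← D_nat, ← D_nat] at h1
      have h2 := (D_bij (Z := Fence.{u} (2 * 2 ^ n)) (n + 1) m).1 h1
      obtain ⟨z, hz1, hz2⟩ := ((dl_PB.{u} j k hjk).Tm (n + 1)).pb x y hxy
      have h3 := DFunLike.congr_fun h2 z
      simp only [OrderHom.comp_coe, Function.comp_apply] at h3
      rw [hz1, hz2] at h3
      exact h3
  have wd : ∀ (j k : Fin (m + 2)) (hj : j ≠ i) (hk : k ≠ i) (x y),
      Tm (dl.{u} j) (n + 1) x = Tm (dl.{u} k) (n + 1) y → h j hj x = h k hk y := by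
    intro j k hj hk x y hxy
    rcases lt_trichotomy j k with hjk | hjk | hjk
    · exact wd1 j k hj hk hjk x y hxy
    · subst hjk
      rw [((dl_emb.{u} j).Tm (n + 1)).inj hxy]
    · exact (wd1 k j hk hj hjk y x hxy.symm).symm
  let F : T (ULift.{u} (Fin (m + 2))) (n + 1) → ℕ := fun b ↦
    if hb : ∃ (j : Fin (m + 2)), ∃ (_ : j ≠ i), ∃ x, Tm (dl.{u} j) (n + 1) x = b then
      (h hb.choose hb.choose_spec.choose hb.choose_spec.choose_spec.choose).val else 0
  have hF : ∀ (j : Fin (m + 2)) (hj : j ≠ i) x, F (Tm (dl.{u} j) (n + 1) x) = (h j hj x).val := by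
    intro j hj x
    have hb : ∃ (j' : Fin (m + 2)), ∃ (_ : j' ≠ i), ∃ x', Tm (dl.{u} j') (n + 1) x' =
      Tm (dl.{u} j) (n + 1) x := ⟨j, hj, x, rfl⟩
    change dite _ _ _ = _
    rw [dif_pos hb]
    exact congrArg Fence.val (wd _ _ _ _ _ _ hb.choose_spec.choose_spec.choose_spec)
  have hFle : ∀ b ∈ An (hornSet.{u} i) n, F b ≤ 2 * 2 ^ n := by
    intro b hb
    obtain ⟨j, hj, x, rfl⟩ := An_range i n b hb
    rw [hF j hj]
    exact (h j hj x).le
  have hFrel : ∀ b ∈ An (hornSet.{u} i) n, ∀ b' ∈ An (hornSet.{u} i) n, b ≤ b' →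
      rel (F b) (F b') := by
    intro b hb b' hb' hbb
    obtain ⟨j, hj, x', rfl⟩ := An_range i n b' hb'
    obtain ⟨x, rfl⟩ := chm_lower (Tm (dl.{u} j) n) b x' hbb
    have h1 := hF j hj x
    have h2 := hF j hj x'
    change rel (F (Tm (dl.{u} j) (n + 1) x)) _
    rw [h1, h2]
    have h3 : x ≤ x' := ((dl_emb.{u} j).Tm (n + 1)) _ _ hbb
    exact (h j hj).monotone h3
  let r := Rn (hornSet_lower.{u} i) n
  let G : T (ULift.{u} (Fin (m + 2))) (n + 1) →o Fence.{u} (2 * 2 ^ n) :=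
    ⟨fun b ↦ ⟨r.ext F b, r.ext_le F b⟩, fun b b' hbb ↦ r.ext_rel F hFrel b b' hbb⟩
  refine ⟨D (n + 1) (m + 1) G, fun j hj ↦ ?_⟩
  rw [← D_nat, ← hh j hj]
  congr 1
  ext1
  funext x
  apply Fence.ext'
  have h1 := mem_An i j hj n x
  change r.ext F (Tm (dl.{u} j) (n + 1) x) = _
  rw [r.ext_eq Nat.one_le_two_pow F _ h1 (hFle _ h1), hF j hj]

end Pool.Agent.H66
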