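import Mathlib
import Pool.Agent.H66.ExKan

open CategoryTheory PartialOrder SSet Opposite

namespace Pool.Agent.H66

universe u

section

variable {P Q : Type u} [PartialOrder P] [PartialOrder Q]

/-- singleton chain -/
def sing (x : P) : NonemptyFiniteChains P where
  finset := {x}
  comparable := by
    rintro ⟨a, ha⟩ ⟨b, hb⟩
    rw [Finset.mem_singleton] at ha hb
    subst ha hb
    exact Or.inl le_rfl

lemma mem_sing {x y : P} : y ∈ (sing x).finset ↔ y = x := Finset.mem_singleton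

lemma chm_sing (f : P →o Q) (x : P) : chm f (sing x) = sing (f x) := by
  apply ch_ext
  intro y
  rw [mem_map, mem_sing]
  constructor
  · rintro ⟨z, hz, rfl⟩
    rw [mem_sing.1 hz]
  · rintro rfl
    exact ⟨x, mem_sing.2 rfl, rfl⟩

lemma mm_sing (k : P → ℕ) (x : P) : mm k (sing x) = 2 * k x := by
  unfold mm
  simp only [sing, Finset.inf'_singleton, Finset.sup'_singleton]
  omega

/-- iterated singletons -/
noncomputable def sn : ∀ (n : ℕ), P → T P n
  | 0, x => x
  | n + 1, x => sing (sn n x)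

lemma Tm_sn (f : P →o Q) : ∀ (n : ℕ) (x : P), Tm f n (sn n x) = sn n (f x)
  | 0, x => rfl
  | n + 1, x => by
    have h1 := chm_sing (Tm f n) (sn n x)
    rw [Tm_sn f n x] at h1
    exact h1

lemma sn_surj [Subsingleton P] (x : P) : ∀ (n : ℕ) (y : T P n), y = sn n x
  | 0, y => Subsingleton.elim (α := P) _ _
  | n + 1, y => by
    apply ch_ext (P := T P n)
    intro z
    rw [sn_surj x n z]
    obtain ⟨w, hw⟩ := NonemptyFiniteChains.nonempty (X := T P n) y
    rw [sn_surj x n w] at hw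
    constructor
    · intro _
      exact mem_sing.2 rfl
    · intro _
      exact hw

lemma lipschitz {x y : P} (hxy : x ≤ y) : ∀ (n C : ℕ) (g : T P n → ℕ)
    (_ : ∀ c c', c ≤ c' → g c ≤ g c' + C ∧ g c' ≤ g c + C),
    g (sn n x) ≤ g (sn n y) + 2 ^ n * C ∧ g (sn n y) ≤ g (sn n x) + 2 ^ n * C
  | 0, C, g, hg => by simpa using! hg x y hxy
  | n + 1, C, g, hg => by
    classical
    have key : ∀ c c' : T P n, c ≤ c' →
        g (sing c) ≤ g (sing c') + 2 * C ∧ g (sing c') ≤ g (sing c) + 2 * C := by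
      intro c c' h
      let p : NonemptyFiniteChains (T P n) :=
        { finset := {c, c'}
          comparable := by
            rintro ⟨a, ha⟩ ⟨b, hb⟩
            rw [Finset.mem_insert, Finset.mem_singleton] at ha hb
            rcases ha with rfl | rfl <;> rcases hb with rfl | rfl
            · exact Or.inl le_rfl
            · exact Or.inl h
            · exact Or.inr h
            · exact Or.inl le_rfl }
      have h1 : sing c ≤ p := fun z hz ↦ by
        rw [mem_sing.1 hz]
        exact Finset.mem_insert_self _ _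
      have h2 : sing c' ≤ p := fun z hz ↦ by
        rw [mem_sing.1 hz]
        exact Finset.mem_insert_of_mem (Finset.mem_singleton_self _)
      have h3 := hg _ _ h1
      have h4 := hg _ _ h2
      omega
    have h5 := lipschitz hxy n (2 * C) (fun c ↦ g (sing c)) key
    have h6 : 2 ^ (n + 1) * C = 2 ^ n * (2 * C) := by ring
    rw [h6]
    exact h5

end

/-- coordinate on the subdivided interval -/
noncomputable def dn : ∀ n : ℕ, T (ULift.{u} (Fin 2)) n → ℕ
  | 0 => fun x ↦ (ULift.down (show ULift.{u} (Fin 2) from x)).val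
  | n + 1 => mm (dn n)

lemma dn_rel : ∀ (n : ℕ) (b b' : T (ULift.{u} (Fin 2)) n), b ≤ b' → rel (dn n b) (dn n b')
  | 0, b, b', h => by
    have key : ∀ a a' : ULift.{u} (Fin 2), a ≤ a' → rel a.down.val a'.down.val := by
      intro a a' h
      have h1 : a.down.val ≤ a'.down.val := h
      have h2 := a.down.isLt
      have h3 := a'.down.isLt
      unfold rel
      omega
    exact key b b' h
  | n + 1, b, b', h => mm_rel (dn_rel n) b b' h

lemma dn_le : ∀ (n : ℕ) (b : T (ULift.{u} (Fin 2)) n), dn n b ≤ 2 ^ n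
  | 0, b => by
    have key : ∀ a : ULift.{u} (Fin 2), a.down.val ≤ 2 ^ 0 := by
      intro a
      have h2 := a.down.isLt
      omega
    exact key b
  | n + 1, b => by
    have h1 := inf_le_sup (dn.{u} n) b
    have h2 : (NonemptyFiniteChains.finset (X := T (ULift.{u} (Fin 2)) n) b).sup'
      (NonemptyFiniteChains.nonempty b) (dn n) ≤ 2 ^ n :=
      Finset.sup'_le _ _ fun x _ ↦ dn_le n x
    change mm (dn n) b ≤ _
    unfold mm
    rw [pow_succ]
    omega

lemma dn_sn (x : ULift.{u} (Fin 2)) : ∀ (n : ℕ), dn n (sn n x) = 2 ^ n * x.down.val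
  | 0 => by simp [dn, sn]
  | n + 1 => by
    have h1 := mm_sing (dn n) (sn n x)
    rw [dn_sn x n] at h1
    change mm (dn n) (sing (sn n x)) = _
    rw [h1]
    ring

open Simplicial

/-- The non-Kan part. -/
theorem not_kan (n : ℕ) :
    ¬ SSet.KanComplex ((SSet.ex.{u}.obj)^[n] (nerve (Fence.{u} (2 * 2 ^ n)))) := by
  intro hK
  rw [SSet.KanComplex.iff] at hK
  let h1 : T (ULift.{u} (Fin 2)) n →o Fence.{u} (2 * 2 ^ n) :=
    ⟨fun x ↦ ⟨dn n x, by have := dn_le n x; omega⟩, fun x y h ↦ dn_rel n x y h⟩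
  let h0 : T (ULift.{u} (Fin 2)) n →o Fence.{u} (2 * 2 ^ n) :=
    ⟨fun x ↦ ⟨2 * 2 ^ n - dn n x, by omega⟩, fun x y h ↦
      rel_sub (dn_rel n x y h) (by have := dn_le n x; omega) (by have := dn_le n y; omega)⟩
  let f : ∀ j : Fin 3, j ≠ 2 → ((Δ[1] : SSet.{u}) ⟶
      (SSet.ex.{u}.obj)^[n] (nerve (Fence.{u} (2 * 2 ^ n)))) :=
    fun j _ ↦ if j = 0 then D n 1 h0 else D n 1 h1
  have hcomp : horn.IsCompatible (i := (2 : Fin 3)) f := by
    intro j k hj hk hjk
    have hj0 : j = 0 := by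
      revert hj hk hjk
      revert j k
      decide
    have hk0 : k = 1 := by
      revert hj hk hjk
      revert j k
      decide
    subst hj0 hk0
    change stdSimplex.δ 0 ≫ D n 1 h0 = stdSimplex.δ 0 ≫ D n 1 h1
    rw [← D_nat, ← D_nat]
    congr 1
    ext1
    funext x
    apply Fence.ext'
    have hs : Subsingleton (ULift.{u} (Fin (0 + 1))) := ⟨fun a b ↦ ULift.ext _ _ (by omega)⟩
    rw [sn_surj (ULift.up 0) n x]
    change 2 * 2 ^ n - dn n (Tm (dl.{u} 0) n (sn n (ULift.up 0))) =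
      dn n (Tm (dl.{u} 0) n (sn n (ULift.up 0)))
    rw [Tm_sn]
    have h2 : dn n (sn n (dl.{u} (0 : Fin 2) (ULift.up 0))) = 2 ^ n * 1 := dn_sn _ n
    rw [h2]
    omega
  obtain ⟨φ, hφ⟩ := hK f hcomp
  obtain ⟨g, rfl⟩ := (D_bij (Z := Fence.{u} (2 * 2 ^ n)) n 2).2 φ
  have e0 := hφ 0 (by decide)
  have e1 := hφ 1 (by decide)
  rw [← D_nat] at e0 e1
  have e0' := (D_bij (Z := Fence.{u} (2 * 2 ^ n)) n 1).1 (e0 : _ = D n 1 h0)
  have e1' := (D_bij (Z := Fence.{u} (2 * 2 ^ n)) n 1).1 (e1 : _ = D n 1 h1)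
  have v0 := congrArg Fence.val (DFunLike.congr_fun e0' (sn n (ULift.up 0)))
  have v1 := congrArg Fence.val (DFunLike.congr_fun e1' (sn n (ULift.up 0)))
  have w0 : (g (sn n (ULift.up 1))).val = 2 * 2 ^ n := by
    have h2 : ((g.comp (Tm (dl.{u} 0) n)) (sn n (ULift.up 0))) = g (sn n (ULift.up 1)) := by
      change g (Tm (dl.{u} 0) n (sn n (ULift.up 0))) = _
      rw [Tm_sn]
      rfl
    rw [← h2, v0]
    change 2 * 2 ^ n - dn n (sn n (ULift.up 0)) = _
    rw [dn_sn]
    simp
  have w1 : (g (sn n (ULift.up 0))).val = 0 := by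
    have h2 : ((g.comp (Tm (dl.{u} 1) n)) (sn n (ULift.up 0))) = g (sn n (ULift.up 0)) := by
      change g (Tm (dl.{u} 1) n (sn n (ULift.up 0))) = _
      rw [Tm_sn]
      rfl
    rw [← h2, v1]
    change dn n (sn n (ULift.up 0)) = _
    rw [dn_sn]
    simp
  have hle : (ULift.up 0 : ULift.{u} (Fin 3)) ≤ ULift.up 1 := by
    change (0 : Fin 3) ≤ 1
    decide
  have hL := lipschitz hle n 1 (fun c ↦ (g c).val) (by
    intro c c' h
    have h2 : rel (g c).val (g c').val := g.monotone h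
    unfold rel at h2
    omega)
  have h3 := hL.2
  change (g (sn n (ULift.up 1))).val ≤ (g (sn n (ULift.up 0))).val + 2 ^ n * 1 at h3
  rw [w0, w1] at h3
  have h4 : 0 < 2 ^ n := by positivity
  omega

end Pool.Agent.H66
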