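import Pool.Agent.H66.PlichkoMain

/-!
# The kernel of `ℓ₁(P(T)) → ℓ_∞(T)` is not Plichko
-/

set_option autoImplicit false

open Set Filter Topology

namespace Pool.Agent.H66.Plichko

universe u v

variable {T : Type u} {ι : Type v}

lemma summable_norm_of_sg (c : Set T → ℝ) (Γ : Set (Set T)) (hc : ∀ S ∉ Γ, c S = 0) (B : ℝ)
    (h : ∀ F₁ F₂ : Finset (Set T), (F₁ : Set (Set T)) ⊆ Γ → (F₂ : Set (Set T)) ⊆ Γ →
      |∑ S ∈ F₁, c S - ∑ S ∈ F₂, c S| ≤ B) (F : Finset (Set T)) : ∑ S ∈ F, |c S| ≤ B := by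
  classical
  have h1 : ∑ S ∈ F, |c S| = ∑ S ∈ F.filter (fun S => S ∈ Γ), |c S| := by
    rw [Finset.sum_filter]
    refine Finset.sum_congr rfl fun S _ => ?_
    split_ifs with hS
    · rfl
    · rw [hc S hS, abs_zero]
  rw [h1]
  refine sum_abs_le' c B _ fun F₁ F₂ h1 h2 => h F₁ F₂ ?_ ?_
  · intro S hS
    exact (Finset.mem_filter.1 (h1 hS)).2
  · intro S hS
    exact (Finset.mem_filter.1 (h2 hS)).2

/-- The set of elements of `ℓ₁` supported in a countable set is separable. -/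
lemma isSeparable_supported (Γ : Set (Set T)) (hΓ : Γ.Countable) :
    TopologicalSpace.IsSeparable {c : L1 (Set T) | ∀ S ∉ Γ, c S = 0} := by
  classical
  have h1 : TopologicalSpace.IsSeparable
      (closure (Submodule.span ℝ (ev '' Γ : Set (L1 (Set T))) : Set (L1 (Set T)))) :=
    ((hΓ.image ev).isSeparable.span).closure
  refine h1.mono fun c hc => ?_
  have h2 := lp.hasSum_single (E := fun _ : Set T => ℝ) (p := 1) (by norm_num) c
  refine mem_closure_of_tendsto h2 (Eventually.of_forall fun F => ?_)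
  refine Submodule.sum_mem _ fun S _ => ?_
  by_cases hS : S ∈ Γ
  · have : lp.single 1 S (c S) = c S • (ev S : L1 (Set T)) := by
      unfold ev
      rw [← lp.single_smul, smul_eq_mul, mul_one]
      congr
    rw [this]
    exact Submodule.smul_mem _ _ (Submodule.subset_span ⟨S, hS, rfl⟩)
  · rw [hc S hS]
    simp

/-- No operator with separable range fixes the vectors `zF`. -/
theorem no_projection [Countable T] (A : ι → Set T) (hinj : Function.Injective A)
    (hA : ∀ i j, i ≠ j → (A i ∩ A j).Finite) (hι : ¬ (univ : Set ι).Countable)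
    (P : Z T →L[ℝ] Z T) (hP : ∀ F : Finset T, P ⟨zF F, zF_mem F⟩ = ⟨zF F, zF_mem F⟩)
    (D : Set (Z T)) (hD : D.Countable)
    (hPD : ∀ x, P x ∈ closure (Submodule.span ℝ D : Set (Z T))) : False := by
  classical
  -- the countable set of coordinates
  let Γ : Set (Set T) := (range fun t : T => ({t} : Set T)) ∪ ⋃ d ∈ D, {S | (d : L1 (Set T)) S ≠ 0}
  have hΓc : Γ.Countable := by
    refine (countable_range _).union (hD.biUnion fun d _ => ?_)
    have := (summable_abs (d : L1 (Set T))).countable_support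
    refine this.mono fun S hS => ?_
    rw [Function.mem_support]
    exact abs_ne_zero.2 hS
  have hΓ1 : ∀ t : T, {t} ∈ Γ := fun t => Or.inl ⟨t, rfl⟩
  have hΓ2 : ∀ z : Z T, ∀ S ∉ Γ, (P z : L1 (Set T)) S = 0 := by
    intro z S hS
    have hcl : IsClosed {x : Z T | (x : L1 (Set T)) S = 0} := by
      have hcont : Continuous fun x : Z T => (x : L1 (Set T)) S :=
        (lp.lipschitzWith_one_eval (E := fun _ : Set T => ℝ) 1 S).continuous.comp
          continuous_subtype_val
      exact isClosed_eq hcont continuous_const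
    have hsub : (Submodule.span ℝ D : Set (Z T)) ⊆ {x : Z T | (x : L1 (Set T)) S = 0} := by
      intro x hx
      refine Submodule.span_induction (p := fun (x : Z T) _ => (x : L1 (Set T)) S = 0) ?_ ?_ ?_ ?_ hx
      · intro d hd
        by_contra hcon
        exact hS (Or.inr (mem_biUnion hd hcon))
      · simp
      · intro x y _ _ hx hy
        rw [Submodule.coe_add, lp.coeFn_add, Pi.add_apply, hx, hy, add_zero]
      · intro a x _ hx
        rw [Submodule.coe_smul, lp.coeFn_smul, Pi.smul_apply, hx, smul_zero]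
    exact closure_minimal hsub hcl (hPD z)
  -- the functionals
  set B : ℝ := ‖P‖ + 2 * (‖P‖ + 1) with hB
  have hB0 : 0 ≤ B := by
    have := P.opNorm_nonneg
    rw [hB]
    linarith
  have hg : ∀ F₁ F₂ : Finset (Set T), ∃ g : L1 (Set T) →L[ℝ] ℝ, ‖g‖ ≤ B ∧
      (∀ t, g (ev {t}) = sg F₁ F₂ {t}) ∧
      ∀ z : Z T, g z = pr (sg F₁ F₂) 1 (sg_le F₁ F₂) (P z) :=
    fun F₁ F₂ => exists_functional P hP _ (sg_le F₁ F₂)
  choose g hgB hg1 hg2 using hg
  choose w hw1 hw2 hw3 using fun I : Finset ι => exists_w P A hA I Γ hΓ1 hΓ2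
  have hstar : ∀ (I : Finset ι) (F₁ F₂ : Finset (Set T)),
      ∑ S ∈ F₁, w I S - ∑ S ∈ F₂, w I S = g F₁ F₂ (rI A I) := by
    intro I F₁ F₂
    rw [← pr_sg]
    exact hw3 I _ (sg_le F₁ F₂) (g F₁ F₂) (hg1 F₁ F₂) (hg2 F₁ F₂)
  -- the single coordinate functionals
  let g1 : Set T → L1 (Set T) →L[ℝ] ℝ := fun S => g {S} ∅
  have hstar1 : ∀ (I : Finset ι) (S : Set T), w I S = g1 S (rI A I) := by
    intro I S
    have := hstar I {S} ∅
    simpa using this
  -- additivity defect
  let H : Finset (Set T) → Finset (Set T) → L1 (Set T) →L[ℝ] ℝ := fun F₁ F₂ =>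
    g F₁ F₂ - (∑ S ∈ F₁, g1 S - ∑ S ∈ F₂, g1 S)
  have hH : ∀ (F₁ F₂ : Finset (Set T)) (I : Finset ι), H F₁ F₂ (rI A I) = 0 := by
    intro F₁ F₂ I
    simp only [H, _root_.sub_apply, _root_.sum_apply]
    rw [← hstar]
    simp only [hstar1]
    ring
  have hHc : ∀ F₁ F₂ : Finset (Set T), {i | H F₁ F₂ (ev (A i)) ≠ 0}.Countable := by
    intro F₁ F₂
    refine countable_of_sums _ ‖H F₁ F₂‖ fun I => ?_
    have h1 := hH F₁ F₂ I
    unfold rI at h1
    rw [map_sub, map_sum, sub_eq_zero] at h1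
    rw [h1]
    exact abs_apply_ev_le _ _
  let Bad : Set ι := ⋃ p ∈ {p : Finset (Set T) × Finset (Set T) |
    (p.1 : Set (Set T)) ⊆ Γ ∧ (p.2 : Set (Set T)) ⊆ Γ}, {i | H p.1 p.2 (ev (A i)) ≠ 0}
  have hBad : Bad.Countable := by
    have hfs : {F : Finset (Set T) | (F : Set (Set T)) ⊆ Γ}.Countable := by
      have h1 := Set.countable_ofPred_finite_subset hΓc
      have h2 : Set.InjOn (fun F : Finset (Set T) => (F : Set (Set T)))
          {F : Finset (Set T) | (F : Set (Set T)) ⊆ Γ} := Finset.coe_injective.injOn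
      refine Set.MapsTo.countable_of_injOn (f := fun F : Finset (Set T) => (F : Set (Set T)))
        ?_ h2 h1
      intro F hF
      exact ⟨F.finite_toSet, hF⟩
    have hp : {p : Finset (Set T) × Finset (Set T) |
        (p.1 : Set (Set T)) ⊆ Γ ∧ (p.2 : Set (Set T)) ⊆ Γ}.Countable :=
      (hfs.prod hfs)
    exact hp.biUnion fun p _ => hHc p.1 p.2
  have hgood : ∀ i ∉ Bad, ∀ F₁ F₂ : Finset (Set T), (F₁ : Set (Set T)) ⊆ Γ →
      (F₂ : Set (Set T)) ⊆ Γ →
      g F₁ F₂ (ev (A i)) = ∑ S ∈ F₁, g1 S (ev (A i)) - ∑ S ∈ F₂, g1 S (ev (A i)) := by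
    intro i hi F₁ F₂ h1 h2
    have h3 : H F₁ F₂ (ev (A i)) = 0 := by
      by_contra hcon
      exact hi (mem_biUnion (x := (F₁, F₂)) ⟨h1, h2⟩ hcon)
    simp only [H, _root_.sub_apply, _root_.sum_apply] at h3
    linarith
  -- the vectors c_i
  let c0 : ι → Set T → ℝ := fun i S => if S ∈ Γ then g1 S (ev (A i)) else 0
  have hc0 : ∀ i, ∀ S ∉ Γ, c0 i S = 0 := fun i S hS => if_neg hS
  have hc0s : ∀ i, ∀ F : Finset (Set T), (F : Set (Set T)) ⊆ Γ →
      ∑ S ∈ F, c0 i S = ∑ S ∈ F, g1 S (ev (A i)) := by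
    intro i F hF
    exact Finset.sum_congr rfl fun S hS => if_pos (hF hS)
  have hc1 : ∀ i ∉ Bad, ∀ F : Finset (Set T), ∑ S ∈ F, |c0 i S| ≤ B := by
    intro i hi
    refine summable_norm_of_sg (c0 i) Γ (hc0 i) B fun F₁ F₂ h1 h2 => ?_
    rw [hc0s i F₁ h1, hc0s i F₂ h2, ← hgood i hi F₁ F₂ h1 h2]
    exact (abs_apply_ev_le _ _).trans (hgB _ _)
  have hc2 : ∀ i, ∃ c : L1 (Set T), (i ∉ Bad → ∀ S, c S = c0 i S) ∧ ∀ S ∉ Γ, c S = 0 := by
    intro i
    by_cases hi : i ∈ Bad
    · exact ⟨0, fun h => absurd hi h, fun S _ => rfl⟩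
    · have hmem : Memℓp (E := fun _ : Set T => ℝ) (c0 i) 1 := by
        refine memℓp_gen' (C := B) fun F => ?_
        simpa using hc1 i hi F
      exact ⟨⟨c0 i, hmem⟩, fun _ S => rfl, hc0 i⟩
  choose c hc hcΓ using hc2
  -- the key estimate
  have hkey : ∀ I : Finset ι, (∀ i ∈ I, i ∉ Bad) → ‖w I - ∑ i ∈ I, c i‖ ≤ B := by
    intro I hI
    rw [norm_eq_tsum]
    have hsum : ∀ F : Finset (Set T), ∑ S ∈ F, |(w I - ∑ i ∈ I, c i) S| ≤ B := by
      refine summable_norm_of_sg _ Γ ?_ B ?_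
      · intro S hS
        rw [lp.coeFn_sub, Pi.sub_apply, hw2 I S hS, lp.coeFn_sum, Finset.sum_apply,
          Finset.sum_eq_zero fun i _ => hcΓ i S hS, sub_zero]
      · intro F₁ F₂ h1 h2
        have h3 : ∀ F : Finset (Set T), (F : Set (Set T)) ⊆ Γ →
            ∑ S ∈ F, (w I - ∑ i ∈ I, c i) S =
              ∑ S ∈ F, w I S - ∑ i ∈ I, ∑ S ∈ F, g1 S (ev (A i)) := by
          intro F hF
          rw [Finset.sum_comm, ← Finset.sum_sub_distrib]
          refine Finset.sum_congr rfl fun S hS => ?_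
          rw [lp.coeFn_sub, Pi.sub_apply, lp.coeFn_sum, Finset.sum_apply]
          congr 1
          refine Finset.sum_congr rfl fun i hi => ?_
          rw [hc i (hI i hi)]
          exact if_pos (hF hS)
        rw [h3 F₁ h1, h3 F₂ h2]
        have h4 : ∑ S ∈ F₁, w I S - ∑ i ∈ I, ∑ S ∈ F₁, g1 S (ev (A i)) -
            (∑ S ∈ F₂, w I S - ∑ i ∈ I, ∑ S ∈ F₂, g1 S (ev (A i))) =
            g F₁ F₂ (rI A I) - ∑ i ∈ I, g F₁ F₂ (ev (A i)) := by
          rw [← hstar, Finset.sum_congr rfl fun i hi => hgood i (hI i hi) F₁ F₂ h1 h2,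
            Finset.sum_sub_distrib]
          ring
        rw [h4]
        unfold rI
        rw [map_sub, map_sum]
        have h5 : ∑ i ∈ I, g F₁ F₂ (ev (A i)) - g F₁ F₂ (ev (⋃ i ∈ I, A i)) -
            ∑ i ∈ I, g F₁ F₂ (ev (A i)) = - g F₁ F₂ (ev (⋃ i ∈ I, A i)) := by ring
        rw [h5, abs_neg]
        exact (abs_apply_ev_le _ _).trans (hgB _ _)
    exact (summable_of_sum_le (fun _ => abs_nonneg _) hsum).tsum_le_of_sum_le hsum
  -- coordinatewise
  have hcoord : ∀ t : T, {i | i ∉ Bad ∧ q t (ev (A i)) - q t (c i) ≠ 0}.Countable := by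
    intro t
    have h1 := countable_of_sums (ι := {i // i ∉ Bad})
      (fun i => q t (ev (A i)) - q t (c i)) (B + 1) ?_
    · have h2 := h1.image (Subtype.val)
      refine h2.mono ?_
      rintro i ⟨hi, hne⟩
      exact ⟨⟨i, hi⟩, hne, rfl⟩
    · intro J
      have h2 := hkey (J.map (Function.Embedding.subtype _)) (by
        intro i hi
        rw [Finset.mem_map] at hi
        obtain ⟨j, _, rfl⟩ := hi
        exact j.2)
      have h3 := (abs_q_le t _).trans h2
      rw [map_sub, hw1, map_sum] at h3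
      unfold rI at h3
      rw [map_sub, map_sum] at h3
      rw [Finset.sum_map, Finset.sum_map] at h3
      have h4 : |q t (ev (⋃ i ∈ J.map (Function.Embedding.subtype _), A i))| ≤ 1 :=
        (abs_apply_ev_le _ _).trans (norm_q_le t)
      rw [Finset.sum_sub_distrib]
      have h5 : ∑ x ∈ J, q t (ev (A x)) - ∑ x ∈ J, q t (c x) =
          (∑ x ∈ J, q t (ev (A ((Function.Embedding.subtype _) x))) -
            q t (ev (⋃ i ∈ J.map (Function.Embedding.subtype _), A i)) -
            ∑ x ∈ J, q t (c ((Function.Embedding.subtype _) x))) +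
            q t (ev (⋃ i ∈ J.map (Function.Embedding.subtype _), A i)) := by
        simp only [Function.Embedding.subtype_apply]
        ring
      rw [h5]
      exact (abs_add_le _ _).trans (add_le_add h3 h4)
  have hBad' : (Bad ∪ ⋃ t : T, {i | i ∉ Bad ∧ q t (ev (A i)) - q t (c i) ≠ 0}).Countable :=
    hBad.union (countable_iUnion hcoord)
  -- two close vectors
  obtain ⟨E, hEs, hEc, hEd⟩ := (isSeparable_supported Γ hΓc).exists_countable_dense_subset
  have hch : ∀ i, ∃ e ∈ E, dist (c i) e < 1 / 2 := fun i =>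
    Metric.mem_closure_iff.1 (hEd (hcΓ i)) (1 / 2) (by norm_num)
  choose e heE hed using hch
  have huc : ¬ ((Bad ∪ ⋃ t : T, {i | i ∉ Bad ∧ q t (ev (A i)) - q t (c i) ≠ 0})ᶜ).Countable := by
    intro hcon
    apply hι
    rw [← union_compl_self (Bad ∪ ⋃ t : T, {i | i ∉ Bad ∧ q t (ev (A i)) - q t (c i) ≠ 0})]
    exact hBad'.union hcon
  have hnotinj : ¬ Set.InjOn e
      (Bad ∪ ⋃ t : T, {i | i ∉ Bad ∧ q t (ev (A i)) - q t (c i) ≠ 0})ᶜ := by
    intro hinj
    exact huc (Set.MapsTo.countable_of_injOn (fun i _ => heE i) hinj hEc)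
  unfold Set.InjOn at hnotinj
  push Not at hnotinj
  obtain ⟨i, hi, j, hj, hij, hne⟩ := hnotinj
  have hgoodq : ∀ i ∈ (Bad ∪ ⋃ t : T, {i | i ∉ Bad ∧ q t (ev (A i)) - q t (c i) ≠ 0})ᶜ,
      ∀ t, q t (ev (A i)) = q t (c i) := by
    intro i hi t
    by_contra hcon
    apply hi
    by_cases hb : i ∈ Bad
    · exact Or.inl hb
    · exact Or.inr (mem_iUnion.2 ⟨t, hb, sub_ne_zero.2 hcon⟩)
  have hdist : ‖c i - c j‖ < 1 := by
    rw [← dist_eq_norm]
    calc dist (c i) (c j) ≤ dist (c i) (e i) + dist (e i) (c j) := dist_triangle _ _ _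
      _ = dist (c i) (e i) + dist (c j) (e j) := by rw [hij, dist_comm (e j)]
      _ < 1 := by
        have h1 := hed i
        have h2 := hed j
        linarith
  apply hne
  apply hinj
  ext t
  have h1 : |q t (ev (A i)) - q t (ev (A j))| < 1 := by
    rw [hgoodq i hi t, hgoodq j hj t, ← map_sub]
    exact (abs_q_le t _).trans_lt hdist
  rw [q_ev, q_ev] at h1
  by_cases hti : t ∈ A i <;> by_cases htj : t ∈ A j <;> simp [hti, htj] at h1 ⊢

/-- an uncountable almost disjoint family of sets of finite sequences -/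
def AD (x : ℕ → Bool) : Set (List Bool) := range fun n : ℕ => (List.range n).map x

lemma AD_injective : Function.Injective AD := by
  intro x y hxy
  funext n
  have h1 : (List.range (n + 1)).map x ∈ AD y := by
    rw [← hxy]
    exact ⟨n + 1, rfl⟩
  obtain ⟨m, hm⟩ := h1
  have hl := congrArg List.length hm
  simp only [List.length_map, List.length_range] at hl
  subst hl
  have h2 := List.map_inj_left.1 hm n (List.mem_range.2 (Nat.lt_succ_self n))
  exact h2.symm

lemma AD_finite (x y : ℕ → Bool) (hxy : x ≠ y) : (AD x ∩ AD y).Finite := by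
  obtain ⟨n, hn⟩ := Function.ne_iff.1 hxy
  refine ((Set.finite_lt_nat (n + 1)).image fun m => (List.range m).map x).subset ?_
  rintro _ ⟨⟨m, rfl⟩, ⟨k, hk⟩⟩
  refine ⟨m, ?_, rfl⟩
  by_contra hcon
  have hcon' : n < m := by
    have : ¬ m < n + 1 := hcon
    omega
  have hl := congrArg List.length hk
  simp only [List.length_map, List.length_range] at hl
  subst hl
  have h2 := List.map_inj_left.1 hk n (List.mem_range.2 hcon')
  exact hn h2.symm

end Pool.Agent.H66.Plichko
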