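import Pool.Agent.H66.PlichkoSCP

/-!
# A subspace of `ℓ₁(Γ)` which is not Plichko

`Γ` is the power set of a countable set `T`, and the subspace is the kernel of the operator
`ℓ₁(Γ) → ℓ_∞(T)` which sends the unit vector `e_S` to the characteristic function of `S`.
-/

set_option autoImplicit false

open Set Filter Topology

namespace Pool.Agent.H66.Plichko

universe u v

section Basic

variable {G : Type u}

/-- the space `ℓ₁(G)` -/
abbrev L1 (G : Type u) := lp (fun _ : G => ℝ) 1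

lemma summable_abs (a : L1 G) : Summable fun S => |a S| := by
  have h := (lp.memℓp a).summable (by simp)
  simpa using h

lemma norm_eq_tsum (a : L1 G) : ‖a‖ = ∑' S, |a S| := by
  rw [lp.norm_eq_tsum_rpow (by simp)]
  simp

lemma summable_mul {φ : G → ℝ} {C : ℝ} (hφ : ∀ S, |φ S| ≤ C) (a : L1 G) :
    Summable fun S => φ S * a S := by
  refine Summable.of_norm_bounded (g := fun S => C * |a S|) ((summable_abs a).mul_left C) ?_
  intro S
  rw [Real.norm_eq_abs, abs_mul]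
  exact mul_le_mul_of_nonneg_right (hφ S) (abs_nonneg _)

/-- the functional on `ℓ₁(G)` given by a bounded function -/
noncomputable def pr (φ : G → ℝ) (C : ℝ) (hφ : ∀ S, |φ S| ≤ C) : L1 G →L[ℝ] ℝ :=
  LinearMap.mkContinuous
    { toFun := fun a => ∑' S, φ S * a S
      map_add' := by
        intro a b
        rw [← (summable_mul hφ a).tsum_add (summable_mul hφ b)]
        refine tsum_congr fun S => ?_
        rw [lp.coeFn_add, Pi.add_apply, mul_add]
      map_smul' := by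
        intro c a
        rw [RingHom.id_apply, smul_eq_mul, ← tsum_mul_left]
        refine tsum_congr fun S => ?_
        rw [lp.coeFn_smul, Pi.smul_apply, smul_eq_mul]
        ring } C (by
      intro a
      change ‖∑' S, φ S * a S‖ ≤ C * ‖a‖
      rw [norm_eq_tsum, ← tsum_mul_left]
      refine tsum_of_norm_bounded ((summable_abs a).mul_left C).hasSum fun S => ?_
      rw [Real.norm_eq_abs, abs_mul]
      exact mul_le_mul_of_nonneg_right (hφ S) (abs_nonneg _))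

lemma pr_apply (φ : G → ℝ) (C : ℝ) (hφ : ∀ S, |φ S| ≤ C) (a : L1 G) :
    pr φ C hφ a = ∑' S, φ S * a S := rfl

lemma norm_pr_le (φ : G → ℝ) (C : ℝ) (hC : 0 ≤ C) (hφ : ∀ S, |φ S| ≤ C) :
    ‖pr φ C hφ‖ ≤ C := LinearMap.mkContinuous_norm_le _ hC _

open Classical in
/-- the unit vectors -/
noncomputable def ev (S : G) : L1 G := lp.single 1 S (1 : ℝ)

open Classical in
lemma ev_apply (S R : G) : ev S R = if R = S then 1 else 0 := by
  unfold ev
  by_cases h : R = S
  · subst h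
    simp
  · rw [lp.single_apply_ne _ _ _ h, if_neg h]

open Classical in
lemma norm_ev (S : G) : ‖ev S‖ = 1 := by
  unfold ev
  rw [lp.norm_single (by norm_num)]
  simp

lemma pr_ev (φ : G → ℝ) (C : ℝ) (hφ : ∀ S, |φ S| ≤ C) (S : G) : pr φ C hφ (ev S) = φ S := by
  classical
  rw [pr_apply, tsum_eq_single S]
  · rw [ev_apply, if_pos rfl, mul_one]
  · intro R hR
    rw [ev_apply, if_neg hR, mul_zero]

lemma abs_apply_ev_le (f : L1 G →L[ℝ] ℝ) (S : G) : |f (ev S)| ≤ ‖f‖ := by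
  have := f.le_opNorm (ev S)
  rwa [norm_ev, mul_one] at this

/-- If all finite partial sums are bounded then so are the partial sums of absolute values. -/
lemma sum_abs_le {ι : Type v} (a : ι → ℝ) (B : ℝ) (h : ∀ F : Finset ι, |∑ i ∈ F, a i| ≤ B)
    (F : Finset ι) : ∑ i ∈ F, |a i| ≤ 2 * B := by
  classical
  rw [← Finset.sum_filter_add_sum_filter_not F (fun i => 0 ≤ a i)]
  have h1 : ∑ i ∈ F.filter (fun i => 0 ≤ a i), |a i| = ∑ i ∈ F.filter (fun i => 0 ≤ a i), a i :=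
    Finset.sum_congr rfl fun i hi => abs_of_nonneg (Finset.mem_filter.1 hi).2
  have h2 : ∑ i ∈ F.filter (fun i => ¬ 0 ≤ a i), |a i| =
      - ∑ i ∈ F.filter (fun i => ¬ 0 ≤ a i), a i := by
    rw [← Finset.sum_neg_distrib]
    exact Finset.sum_congr rfl fun i hi => abs_of_neg (not_le.1 (Finset.mem_filter.1 hi).2)
  have h3 := h (F.filter (fun i => 0 ≤ a i))
  have h4 := h (F.filter (fun i => ¬ 0 ≤ a i))
  rw [h1, h2]
  have h5 := (abs_le.1 h3).2
  have h6 := (abs_le.1 h4).1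
  linarith

lemma summable_of_sums {ι : Type v} (a : ι → ℝ) (B : ℝ)
    (h : ∀ F : Finset ι, |∑ i ∈ F, a i| ≤ B) : Summable fun i => |a i| :=
  summable_of_sum_le (fun _ => abs_nonneg _) (sum_abs_le a B h)

lemma countable_of_sums {ι : Type v} (a : ι → ℝ) (B : ℝ)
    (h : ∀ F : Finset ι, |∑ i ∈ F, a i| ≤ B) : {i | a i ≠ 0}.Countable := by
  have h1 := (summable_of_sums a B h).countable_support
  refine h1.mono fun i hi => ?_
  rw [Function.mem_support]
  exact abs_ne_zero.2 hi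

/-- signed sums over pairs of finite sets control the sum of absolute values -/
lemma sum_abs_le' {ι : Type v} (a : ι → ℝ) (B : ℝ) (F : Finset ι)
    (h : ∀ F₁ F₂ : Finset ι, F₁ ⊆ F → F₂ ⊆ F → |∑ i ∈ F₁, a i - ∑ i ∈ F₂, a i| ≤ B) :
    ∑ i ∈ F, |a i| ≤ B := by
  classical
  rw [← Finset.sum_filter_add_sum_filter_not F (fun i => 0 ≤ a i)]
  have h1 : ∑ i ∈ F.filter (fun i => 0 ≤ a i), |a i| = ∑ i ∈ F.filter (fun i => 0 ≤ a i), a i :=
    Finset.sum_congr rfl fun i hi => abs_of_nonneg (Finset.mem_filter.1 hi).2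
  have h2 : ∑ i ∈ F.filter (fun i => ¬ 0 ≤ a i), |a i| =
      - ∑ i ∈ F.filter (fun i => ¬ 0 ≤ a i), a i := by
    rw [← Finset.sum_neg_distrib]
    exact Finset.sum_congr rfl fun i hi => abs_of_neg (not_le.1 (Finset.mem_filter.1 hi).2)
  rw [h1, h2]
  have h3 := h _ _ (Finset.filter_subset (fun i => 0 ≤ a i) F)
    (Finset.filter_subset (fun i => ¬ 0 ≤ a i) F)
  have h4 := (abs_le.1 h3).2
  linarith

end Basic

section Main

variable {T : Type u}

open Classical in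
/-- the `t`-th coordinate of the operator `ℓ₁(P(T)) → ℓ_∞(T)` -/
noncomputable def q (t : T) : L1 (Set T) →L[ℝ] ℝ :=
  pr (fun S => if t ∈ S then 1 else 0) 1 (by
    intro S
    split_ifs <;> simp)

open Classical in
lemma q_ev (t : T) (S : Set T) : q t (ev S) = if t ∈ S then 1 else 0 := pr_ev _ _ _ _

lemma norm_q_le (t : T) : ‖q t‖ ≤ 1 := norm_pr_le _ _ zero_le_one _

lemma abs_q_le (t : T) (a : L1 (Set T)) : |q t a| ≤ ‖a‖ := by
  calc |q t a| ≤ ‖q t‖ * ‖a‖ := (q t).le_opNorm a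
    _ ≤ 1 * ‖a‖ := by gcongr; exact norm_q_le t
    _ = ‖a‖ := one_mul _

/-- the kernel of the operator -/
noncomputable def Z (T : Type u) : Submodule ℝ (L1 (Set T)) :=
  ⨅ t : T, LinearMap.ker (q t).toLinearMap

lemma mem_Z (a : L1 (Set T)) : a ∈ Z T ↔ ∀ t, q t a = 0 := by
  simp [Z, Submodule.mem_iInf, LinearMap.mem_ker]

lemma isClosed_Z : IsClosed (Z T : Set (L1 (Set T))) := by
  have : (Z T : Set (L1 (Set T))) = ⋂ t, {a | q t a = 0} := by
    ext a
    simp [mem_Z]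
  rw [this]
  exact isClosed_iInter fun t => isClosed_eq (q t).continuous continuous_const

/-- the elements `e_F - ∑_{t ∈ F} e_{t}` of the kernel -/
noncomputable def zF (F : Finset T) : L1 (Set T) := ev (F : Set T) - ∑ t ∈ F, ev {t}

lemma zF_mem (F : Finset T) : zF F ∈ Z T := by
  classical
  rw [mem_Z]
  intro t
  unfold zF
  rw [map_sub, map_sum, q_ev]
  have : ∀ s ∈ F, q t (ev {s}) = if t = s then 1 else 0 := by
    intro s _
    rw [q_ev]
    simp only [mem_singleton_iff]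
  rw [Finset.sum_congr rfl this, Finset.sum_ite_eq]
  simp

/-- Extension of functionals. -/
lemma exists_functional (P : Z T →L[ℝ] Z T) (hP : ∀ F : Finset T, P ⟨zF F, zF_mem F⟩ = ⟨zF F, zF_mem F⟩)
    (y : Set T → ℝ) (hy : ∀ S, |y S| ≤ 1) :
    ∃ g : L1 (Set T) →L[ℝ] ℝ, ‖g‖ ≤ ‖P‖ + 2 * (‖P‖ + 1) ∧ (∀ t, g (ev {t}) = y {t}) ∧
      ∀ z : Z T, g z = pr y 1 hy (P z) := by
  let φ : Z T →L[ℝ] ℝ := (pr y 1 hy) ∘L (Z T).subtypeL ∘L P
  have hφ : ‖φ‖ ≤ ‖P‖ := by
    refine ContinuousLinearMap.opNorm_le_bound _ P.opNorm_nonneg fun z => ?_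
    calc ‖φ z‖ ≤ ‖pr y 1 hy‖ * ‖((P z : Z T) : L1 (Set T))‖ := (pr y 1 hy).le_opNorm _
      _ ≤ 1 * ‖P z‖ := by
        gcongr
        · exact norm_pr_le _ _ zero_le_one _
        · exact le_refl _
      _ ≤ ‖P‖ * ‖z‖ := by rw [one_mul]; exact P.le_opNorm z
  obtain ⟨f, hf1, hf2⟩ := exists_extension_norm_eq (𝕜 := ℝ) (Z T) φ
  have hfK : ‖f‖ ≤ ‖P‖ := hf2.le.trans hφ
  let μ : T → ℝ := fun t => f (ev {t}) - y {t}
  have hμ : ∀ F : Finset T, ∑ t ∈ F, μ t = f (ev (F : Set T)) - y F := by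
    intro F
    have h1 : f (zF F) = pr y 1 hy (zF F) := by
      have := hf1 ⟨zF F, zF_mem F⟩
      rw [this]
      change pr y 1 hy (P ⟨zF F, zF_mem F⟩ : Z T) = _
      rw [hP F]
    unfold zF at h1
    rw [map_sub, map_sub, map_sum, map_sum, pr_ev] at h1
    simp only [pr_ev] at h1
    simp only [μ, Finset.sum_sub_distrib]
    linarith
  have hμb : ∀ F : Finset T, |∑ t ∈ F, μ t| ≤ ‖P‖ + 1 := by
    intro F
    rw [hμ]
    calc |f (ev (F : Set T)) - y F| ≤ |f (ev (F : Set T))| + |y F| := abs_sub _ _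
      _ ≤ ‖P‖ + 1 := add_le_add ((abs_apply_ev_le f _).trans hfK) (hy _)
  have hμs : Summable fun t => |μ t| := summable_of_sums μ _ hμb
  have hμt : ∑' t, |μ t| ≤ 2 * (‖P‖ + 1) :=
    hμs.tsum_le_of_sum_le (sum_abs_le μ _ hμb)
  have hb : ∀ t, ‖μ t • q t‖ ≤ |μ t| := by
    intro t
    rw [norm_smul, Real.norm_eq_abs]
    exact mul_le_of_le_one_right (abs_nonneg _) (norm_q_le t)
  have hsum : Summable fun t => μ t • q t := Summable.of_norm_bounded hμs hb
  let Λ : L1 (Set T) →L[ℝ] ℝ := ∑' t, μ t • q t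
  have hΛn : ‖Λ‖ ≤ 2 * (‖P‖ + 1) := (tsum_of_norm_bounded hμs.hasSum hb).trans hμt
  have hΛa : ∀ a, Λ a = ∑' t, μ t * q t a := by
    intro a
    have h1 := ((ContinuousLinearMap.apply ℝ ℝ a).hasSum hsum.hasSum).tsum_eq
    exact h1.symm
  have hΛz : ∀ z ∈ Z T, Λ z = 0 := by
    intro z hz
    rw [hΛa]
    simp [(mem_Z z).1 hz]
  refine ⟨f - Λ, ?_, ?_, ?_⟩
  · calc ‖f - Λ‖ ≤ ‖f‖ + ‖Λ‖ := norm_sub_le _ _
      _ ≤ _ := add_le_add hfK hΛn
  · intro t
    classical
    rw [_root_.sub_apply, hΛa, tsum_eq_single t]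
    · rw [q_ev, if_pos (mem_singleton t)]
      simp [μ]
    · intro s hs
      rw [q_ev, if_neg (by simpa using hs), mul_zero]
  · intro z
    rw [_root_.sub_apply, hΛz z z.2, sub_zero, hf1 z]
    rfl

open Classical in
/-- the sign vectors -/
noncomputable def sg (F₁ F₂ : Finset (Set T)) : Set T → ℝ :=
  fun S => (if S ∈ F₁ then 1 else 0) - (if S ∈ F₂ then 1 else 0)

lemma sg_le (F₁ F₂ : Finset (Set T)) (S : Set T) : |sg F₁ F₂ S| ≤ 1 := by
  unfold sg
  split_ifs <;> simp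

lemma pr_sg (F₁ F₂ : Finset (Set T)) (a : L1 (Set T)) :
    pr (sg F₁ F₂) 1 (sg_le F₁ F₂) a = ∑ S ∈ F₁, a S - ∑ S ∈ F₂, a S := by
  classical
  rw [pr_apply]
  have h1 : ∀ F : Finset (Set T), HasSum (fun S => (if S ∈ F then (1 : ℝ) else 0) * a S)
      (∑ S ∈ F, a S) := by
    intro F
    have h2 : ∑ S ∈ F, a S = ∑ S ∈ F, (if S ∈ F then (1 : ℝ) else 0) * a S := by
      refine Finset.sum_congr rfl fun S hS => ?_
      rw [if_pos hS, one_mul]
    rw [h2]
    apply hasSum_sum_of_ne_finset_zero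
    intro S hS
    rw [if_neg hS, zero_mul]
  have h3 := (h1 F₁).sub (h1 F₂)
  rw [← h3.tsum_eq]
  refine tsum_congr fun S => ?_
  unfold sg
  ring

variable {ι : Type v}

/-- the elements `∑_{i ∈ I} e_{A i} - e_{⋃ A i}` -/
noncomputable def rI (A : ι → Set T) (I : Finset ι) : L1 (Set T) :=
  ∑ i ∈ I, ev (A i) - ev (⋃ i ∈ I, A i)

lemma rI_finite (A : ι → Set T) (hA : ∀ i j, i ≠ j → (A i ∩ A j).Finite) (I : Finset ι) :
    {t | q t (rI A I) ≠ 0}.Finite := by
  classical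
  have hfin : (⋃ i ∈ I, ⋃ j ∈ I, ⋃ (_ : i ≠ j), (A i ∩ A j)).Finite := by
    refine I.finite_toSet.biUnion fun i _ => I.finite_toSet.biUnion fun j _ => ?_
    by_cases h : i = j
    · simp [h]
    · simpa [h] using hA i j h
  refine hfin.subset fun t ht => ?_
  by_contra hcon
  apply ht
  unfold rI
  rw [map_sub, map_sum, q_ev]
  simp only [q_ev]
  by_cases hex : ∃ i ∈ I, t ∈ A i
  · obtain ⟨i, hi, hti⟩ := hex
    have hmem : t ∈ ⋃ i ∈ I, A i := mem_iUnion₂.2 ⟨i, hi, hti⟩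
    rw [if_pos hmem, Finset.sum_eq_single i]
    · rw [if_pos hti, sub_self]
    · intro j hj hji
      rw [if_neg]
      intro htj
      apply hcon
      simp only [mem_iUnion]
      exact ⟨i, hi, j, hj, fun h => hji h.symm, hti, htj⟩
    · intro h
      exact absurd hi h
  · rw [if_neg, Finset.sum_eq_zero]
    · simp
    · intro i hi
      rw [if_neg]
      exact fun h => hex ⟨i, hi, h⟩
    · intro h
      simp only [mem_iUnion] at h
      obtain ⟨i, hi, h⟩ := h
      exact hex ⟨i, hi, h⟩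

/-- The vector `w_I`. -/
lemma exists_w (P : Z T →L[ℝ] Z T) (A : ι → Set T)
    (hA : ∀ i j, i ≠ j → (A i ∩ A j).Finite) (I : Finset ι) (Γ : Set (Set T))
    (hΓ1 : ∀ t, {t} ∈ Γ) (hΓ2 : ∀ z : Z T, ∀ S ∉ Γ, (P z : L1 (Set T)) S = 0) :
    ∃ w : L1 (Set T), (∀ t, q t w = q t (rI A I)) ∧ (∀ S ∉ Γ, w S = 0) ∧
      ∀ (y : Set T → ℝ) (hy : ∀ S, |y S| ≤ 1) (g : L1 (Set T) →L[ℝ] ℝ),
        (∀ t, g (ev {t}) = y {t}) → (∀ z : Z T, g z = pr y 1 hy (P z)) →
        pr y 1 hy w = g (rI A I) := by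
  classical
  have hfin := rI_finite A hA I
  let F : Finset T := hfin.toFinset
  let s : L1 (Set T) := ∑ t ∈ F, q t (rI A I) • ev {t}
  have hs : ∀ t, q t s = q t (rI A I) := by
    intro t
    simp only [s, map_sum, map_smul, smul_eq_mul]
    have : ∀ u ∈ F, q u (rI A I) * q t (ev {u}) = if t = u then q u (rI A I) else 0 := by
      intro u _
      rw [q_ev]
      simp only [mem_singleton_iff, mul_ite, mul_one, mul_zero]
    rw [Finset.sum_congr rfl this, Finset.sum_ite_eq]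
    split_ifs with h
    · rfl
    · by_contra hcon
      exact h (hfin.mem_toFinset.2 fun h0 => hcon h0.symm)
  have hz : rI A I - s ∈ Z T := by
    rw [mem_Z]
    intro t
    rw [map_sub, hs, sub_self]
  refine ⟨(P ⟨rI A I - s, hz⟩ : Z T) + s, ?_, ?_, ?_⟩
  · intro t
    rw [map_add, (mem_Z _).1 (P ⟨rI A I - s, hz⟩).2 t, hs, zero_add]
  · intro S hS
    rw [lp.coeFn_add, Pi.add_apply, hΓ2 _ S hS, zero_add]
    simp only [s]
    rw [lp.coeFn_sum, Finset.sum_apply]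
    refine Finset.sum_eq_zero fun t _ => ?_
    rw [lp.coeFn_smul, Pi.smul_apply, ev_apply, if_neg, smul_zero]
    rintro rfl
    exact hS (hΓ1 t)
  · intro y hy g hg1 hg2
    rw [map_add, ← hg2]
    have h1 : pr y 1 hy s = g s := by
      simp only [s, map_sum, map_smul, pr_ev, hg1]
    rw [h1, ← map_add]
    simp

end Main

end Pool.Agent.H66.Plichko
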