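import Mathlib

/-!
# Plichko spaces have (a form of) the separable complementation property
-/

set_option autoImplicit false

open Set Filter Topology

namespace Pool.Agent.H66.Plichko

section SCP

variable {E : Type*} [NormedAddCommGroup E] [NormedSpace ℝ E]

/-- One closing-off step. -/
lemma closing_step (M : Set E) (N : Submodule ℝ (E →L[ℝ] ℝ)) (r : ℝ) (hr : 0 < r)
    (hN : ∀ x : E, x ≠ 0 → ∃ f ∈ N, ‖f‖ ≤ 1 ∧ r * ‖x‖ < |f x|)
    (hc : ∀ f ∈ N, Set.Countable {m : E | m ∈ M ∧ f m ≠ 0})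
    (A : Set E) (hA : A.Countable) (hAM : A ⊆ M) :
    ∃ B : Set E, B.Countable ∧ B ⊆ M ∧ A ⊆ B ∧
      ∀ x ∈ Submodule.span ℝ A, ∃ f : E →L[ℝ] ℝ, ‖f‖ ≤ 1 ∧ (r / 2) * ‖x‖ ≤ |f x| ∧
        {m : E | m ∈ M ∧ f m ≠ 0} ⊆ B := by
  have hN' : ∀ x : E, ∃ f ∈ N, ‖f‖ ≤ 1 ∧ r * ‖x‖ ≤ |f x| := by
    intro x
    by_cases hx : x = 0
    · exact ⟨0, N.zero_mem, by simp, by simp [hx]⟩
    · obtain ⟨f, hf, h1, h2⟩ := hN x hx
      exact ⟨f, hf, h1, h2.le⟩
  choose g hgN hg1 hg2 using hN'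
  have hsep : TopologicalSpace.IsSeparable (Submodule.span ℝ A : Set E) :=
    hA.isSeparable.span
  obtain ⟨D, hDs, hDc, hDd⟩ := hsep.exists_countable_dense_subset
  refine ⟨A ∪ ⋃ d ∈ D, {m : E | m ∈ M ∧ g d m ≠ 0}, ?_, ?_, subset_union_left, ?_⟩
  · exact hA.union (hDc.biUnion fun d _ => hc _ (hgN d))
  · refine union_subset hAM (iUnion₂_subset fun d _ => ?_)
    exact fun m hm => hm.1
  · intro x hx
    by_cases hx0 : x = 0
    · exact ⟨0, by simp, by simp [hx0], by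
        rintro m ⟨_, hm⟩
        exact absurd rfl hm⟩
    have hxn : 0 < ‖x‖ := norm_pos_iff.2 hx0
    have hr1 : r ≤ 1 := by
      have h1 := hg2 x
      have h2 : |g x x| ≤ ‖x‖ := by
        calc |g x x| ≤ ‖g x‖ * ‖x‖ := (g x).le_opNorm x
          _ ≤ 1 * ‖x‖ := by gcongr; exact hg1 x
          _ = ‖x‖ := one_mul _
      have h3 : r * ‖x‖ ≤ 1 * ‖x‖ := by linarith
      exact le_of_mul_le_mul_right h3 hxn
    obtain ⟨d, hdD, hd⟩ := Metric.mem_closure_iff.1 (hDd hx) (r / 4 * ‖x‖) (by positivity)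
    refine ⟨g d, hg1 d, ?_, ?_⟩
    · have h1 := hg2 d
      have h2 : |g d (x - d)| ≤ ‖x - d‖ := by
        calc |g d (x - d)| ≤ ‖g d‖ * ‖x - d‖ := (g d).le_opNorm _
          _ ≤ 1 * ‖x - d‖ := by gcongr; exact hg1 d
          _ = ‖x - d‖ := one_mul _
      rw [dist_eq_norm] at hd
      have h3 : ‖x‖ - ‖x - d‖ ≤ ‖d‖ := by
        have := norm_sub_norm_le x (x - d)
        simpa using this
      have h4 : |g d d| ≤ |g d x| + |g d (x - d)| := by
        have : g d d = g d x - g d (x - d) := by rw [map_sub]; ring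
        rw [this]
        exact abs_sub _ _
      have h5 : r * ‖d‖ ≥ r * (‖x‖ - r / 4 * ‖x‖) := by
        apply mul_le_mul_of_nonneg_left _ hr.le
        linarith
      have h6 : r * (r / 4 * ‖x‖) ≤ 1 * (r / 4 * ‖x‖) := by
        apply mul_le_mul_of_nonneg_right hr1 (by positivity)
      nlinarith
    · exact subset_union_of_subset_right (subset_biUnion_of_mem (u := fun d =>
        {m : E | m ∈ M ∧ g d m ≠ 0}) hdD) _

/-- Closing off under the norming functionals. -/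
lemma closing (M : Set E) (N : Submodule ℝ (E →L[ℝ] ℝ)) (r : ℝ) (hr : 0 < r)
    (hN : ∀ x : E, x ≠ 0 → ∃ f ∈ N, ‖f‖ ≤ 1 ∧ r * ‖x‖ < |f x|)
    (hc : ∀ f ∈ N, Set.Countable {m : E | m ∈ M ∧ f m ≠ 0})
    (A : Set E) (hA : A.Countable) (hAM : A ⊆ M) :
    ∃ B : Set E, B.Countable ∧ B ⊆ M ∧ A ⊆ B ∧
      ∀ x ∈ Submodule.span ℝ B, ∃ f : E →L[ℝ] ℝ, ‖f‖ ≤ 1 ∧ (r / 2) * ‖x‖ ≤ |f x| ∧
        {m : E | m ∈ M ∧ f m ≠ 0} ⊆ B := by
  choose! Φ h1 h2 h3 h4 using closing_step M N r hr hN hc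
  let a : ℕ → Set E := fun n => Nat.rec A (fun _ s => Φ s) n
  have ha0 : a 0 = A := rfl
  have has : ∀ n, a (n + 1) = Φ (a n) := fun n => rfl
  have hP : ∀ n, (a n).Countable ∧ a n ⊆ M := by
    intro n
    induction n with
    | zero => exact ⟨hA, hAM⟩
    | succ n ih => exact ⟨h1 _ ih.1 ih.2, h2 _ ih.1 ih.2⟩
  have hmono : Monotone a := monotone_nat_of_le_succ fun n => h3 _ (hP n).1 (hP n).2
  refine ⟨⋃ n, a n, countable_iUnion fun n => (hP n).1, iUnion_subset fun n => (hP n).2,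
    subset_iUnion a 0, ?_⟩
  intro x hx
  rw [Submodule.span_iUnion] at hx
  have hdir : Directed (· ≤ ·) fun n => Submodule.span ℝ (a n) :=
    (Monotone.directed_le fun m n hmn => Submodule.span_mono (hmono hmn))
  obtain ⟨n, hn⟩ := (Submodule.mem_iSup_of_directed _ hdir).1 hx
  obtain ⟨f, hf1, hf2, hf3⟩ := h4 (a n) (hP n).1 (hP n).2 x hn
  exact ⟨f, hf1, hf2, hf3.trans (subset_iUnion a (n + 1))⟩

/-- Every point of the closed linear span of `M` is in the closed linear span of a countable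
subset of `M`. -/
lemma countable_closure (M : Set E) (hM : Dense (Submodule.span ℝ M : Set E)) (x : E) :
    ∃ A : Set E, A.Countable ∧ A ⊆ M ∧ x ∈ closure (Submodule.span ℝ A : Set E) := by
  have h : ∀ n : ℕ, ∃ T : Finset E, (T : Set E) ⊆ M ∧ ∃ v ∈ Submodule.span ℝ (T : Set E),
      dist x v < 1 / ((n : ℝ) + 1) := by
    intro n
    obtain ⟨v, hv, hvd⟩ := Metric.mem_closure_iff.1 (hM x) (1 / ((n : ℝ) + 1)) (by positivity)
    obtain ⟨T, hT, hvT⟩ := Submodule.mem_span_finite_of_mem_span hv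
    exact ⟨T, hT, v, hvT, hvd⟩
  choose T hTM v hv hvd using h
  refine ⟨⋃ n, (T n : Set E), countable_iUnion fun n => (T n).countable_toSet,
    iUnion_subset hTM, ?_⟩
  rw [Metric.mem_closure_iff]
  intro ε hε
  obtain ⟨n, hn⟩ := exists_nat_one_div_lt hε
  exact ⟨v n, Submodule.span_mono (subset_iUnion (fun n => (T n : Set E)) n) (hv n),
    (hvd n).trans hn⟩

/-- The separable complementation property of Plichko spaces. -/
theorem exists_projection [CompleteSpace E] (M : Set E) (N : Submodule ℝ (E →L[ℝ] ℝ))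
    (hM : Dense (Submodule.span ℝ M : Set E)) (r : ℝ) (hr : 0 < r)
    (hN : ∀ x : E, x ≠ 0 → ∃ f ∈ N, ‖f‖ ≤ 1 ∧ r * ‖x‖ < |f x|)
    (hc : ∀ f ∈ N, Set.Countable {m : E | m ∈ M ∧ f m ≠ 0})
    (S : Set E) (hS : S.Countable) :
    ∃ (P : E →L[ℝ] E) (A : Set E), A.Countable ∧ (∀ x ∈ S, P x = x) ∧
      ∀ x, P x ∈ closure (Submodule.span ℝ A : Set E) := by
  choose A₀ hA₀c hA₀M hA₀x using countable_closure M hM
  obtain ⟨B, hBc, hBM, hAB, hB⟩ := closing M N r hr hN hc (⋃ s ∈ S, A₀ s)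
    (hS.biUnion fun s _ => hA₀c s) (iUnion₂_subset fun s _ => hA₀M s)
  let V₁ : Submodule ℝ E := Submodule.span ℝ B
  let V₂ : Submodule ℝ E := Submodule.span ℝ (M \ B)
  have hineq : ∀ x ∈ V₁, ∀ y ∈ V₂, (r / 2) * ‖x‖ ≤ ‖x + y‖ := by
    intro x hx y hy
    obtain ⟨f, hf1, hf2, hf3⟩ := hB x hx
    have hfy : f y = 0 := by
      have h1 : V₂ ≤ LinearMap.ker f.toLinearMap := by
        refine Submodule.span_le.2 fun m hm => ?_
        by_contra hcon
        exact hm.2 (hf3 ⟨hm.1, hcon⟩)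
      exact h1 hy
    have h2 : f x = f (x + y) := by rw [map_add, hfy, add_zero]
    calc (r / 2) * ‖x‖ ≤ |f x| := hf2
      _ = ‖f (x + y)‖ := by rw [h2]; rfl
      _ ≤ ‖f‖ * ‖x + y‖ := f.le_opNorm _
      _ ≤ 1 * ‖x + y‖ := by gcongr
      _ = ‖x + y‖ := one_mul _
  let E₁ : Submodule ℝ E := V₁.topologicalClosure
  let E₂ : Submodule ℝ E := V₂.topologicalClosure
  have hineq' : ∀ x ∈ E₁, ∀ y ∈ E₂, (r / 2) * ‖x‖ ≤ ‖x + y‖ := by
    intro x hx y hy
    have h1 : closure ((V₁ : Set E) ×ˢ (V₂ : Set E)) ⊆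
        {p : E × E | (r / 2) * ‖p.1‖ ≤ ‖p.1 + p.2‖} := by
      apply closure_minimal
      · rintro ⟨a, b⟩ ⟨ha, hb⟩
        exact hineq a ha b hb
      · exact isClosed_le (by fun_prop) (by fun_prop)
    have h2 : (x, y) ∈ closure ((V₁ : Set E) ×ˢ (V₂ : Set E)) := by
      rw [closure_prod_eq]
      exact ⟨hx, hy⟩
    exact h1 h2
  have hE₁c : CompleteSpace E₁ := (Submodule.isClosed_topologicalClosure V₁).completeSpace_coe
  have hE₂c : CompleteSpace E₂ := (Submodule.isClosed_topologicalClosure V₂).completeSpace_coe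
  let T : (E₁ × E₂) →L[ℝ] E := E₁.subtypeL.coprod E₂.subtypeL
  have hT : ∀ p : E₁ × E₂, T p = (p.1 : E) + (p.2 : E) := fun p => rfl
  have hbd : ∀ p : E₁ × E₂, ‖p‖ ≤ (Real.toNNReal (1 + 2 / r) : ℝ) * ‖T p‖ := by
    rintro ⟨x, y⟩
    rw [Real.coe_toNNReal _ (by positivity), hT]
    have h1 := hineq' x.1 x.2 y.1 y.2
    have h2 : ‖(x : E)‖ ≤ 2 / r * ‖(x : E) + (y : E)‖ := by
      have : ‖(x : E)‖ = 2 / r * ((r / 2) * ‖(x : E)‖) := by field_simp
      rw [this]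
      gcongr
    have h3 : ‖(y : E)‖ ≤ ‖(x : E) + (y : E)‖ + ‖(x : E)‖ := by
      have := norm_sub_le ((x : E) + (y : E)) (x : E)
      simpa using this
    have h4 : 0 ≤ ‖(x : E) + (y : E)‖ := norm_nonneg _
    apply max_le
    · calc ‖(x : E)‖ ≤ 2 / r * ‖(x : E) + (y : E)‖ := h2
        _ ≤ (1 + 2 / r) * ‖(x : E) + (y : E)‖ := by gcongr; linarith
    · calc ‖(y : E)‖ ≤ ‖(x : E) + (y : E)‖ + 2 / r * ‖(x : E) + (y : E)‖ := by linarith
        _ = (1 + 2 / r) * ‖(x : E) + (y : E)‖ := by ring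
  have hanti := T.antilipschitz_of_bound hbd
  have hclosed : IsClosed (range T) := hanti.isClosed_range T.uniformContinuous
  have hrange : T.range = ⊤ := by
    rw [eq_top_iff]
    intro x _
    have h1 : (Submodule.span ℝ M : Set E) ⊆ range T := by
      have : Submodule.span ℝ M ≤ LinearMap.range T.toLinearMap := by
        refine Submodule.span_le.2 fun m hm => ?_
        by_cases hmB : m ∈ B
        · refine ⟨(⟨m, Submodule.le_topologicalClosure _ (Submodule.subset_span hmB)⟩, 0), ?_⟩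
          simp [hT]
        · refine ⟨(0, ⟨m, Submodule.le_topologicalClosure _ (Submodule.subset_span ⟨hm, hmB⟩)⟩), ?_⟩
          simp [hT]
      intro v hv
      obtain ⟨p, hp⟩ := this hv
      exact ⟨p, hp⟩
    have h2 : closure (Submodule.span ℝ M : Set E) ⊆ range T := closure_minimal h1 hclosed
    obtain ⟨p, hp⟩ := h2 (hM x)
    exact ⟨p, hp⟩
  have hker : T.ker = ⊥ := by
    rw [eq_bot_iff]
    intro p hp
    have h1 : T p = 0 := hp
    have h2 := hbd p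
    rw [h1, norm_zero, mul_zero] at h2
    exact norm_le_zero_iff.1 h2
  let e := ContinuousLinearEquiv.ofBijective T hker hrange
  refine ⟨E₁.subtypeL ∘L (ContinuousLinearMap.fst ℝ E₁ E₂) ∘L (e.symm : E →L[ℝ] E₁ × E₂),
    B, hBc, ?_, ?_⟩
  · intro x hx
    have hx1 : x ∈ E₁ := by
      have h1 : closure (Submodule.span ℝ (A₀ x) : Set E) ⊆ closure (V₁ : Set E) :=
        closure_mono (Submodule.span_mono ((subset_biUnion_of_mem (u := A₀) hx).trans hAB))
      exact h1 (hA₀x x)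
    have h2 : e.symm x = (⟨x, hx1⟩, 0) := by
      rw [ContinuousLinearEquiv.symm_apply_eq]
      change x = T _
      simp [hT]
    change ((e.symm x).1 : E) = x
    rw [h2]
  · intro x
    exact (e.symm x).1.2

end SCP

end Pool.Agent.H66.Plichko
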